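import Pool.Agent.Lib.MP_386e47_h75.Wall

/-!
# The second moment of a stable sum on the torus
-/

set_option autoImplicit false

namespace Pool.Agent.LevelOne

open MeasureTheory

/-- The sawtooth function on the circle. -/
noncomputable def sawC : UnitAddCircle → ℝ := saw_periodic.lift

lemma sawC_coe (x : ℝ) : sawC (x : UnitAddCircle) = saw x := saw_periodic.lift_coe x

lemma measurable_sawC : Measurable sawC := by
  have h : sawC = fun x => saw ((AddCircle.measurableEquivIco (1 : ℝ) 0 x : Set.Ico (0 : ℝ) (0 + 1)) : ℝ) := by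
    funext x
    conv_lhs => rw [← (AddCircle.equivIco (1 : ℝ) 0).symm_apply_apply x]
    exact sawC_coe _
  rw [h]
  exact measurable_saw.comp (measurable_subtype_coe.comp
    (AddCircle.measurableEquivIco (1 : ℝ) 0).measurable)

lemma abs_sawC (x : UnitAddCircle) : |sawC x| ≤ 1 / 2 := by
  induction x using QuotientAddGroup.induction_on with
  | H x => exact abs_saw_lt x

lemma sawC_half (x : UnitAddCircle) :
    sawC x + sawC (x + ((1 / 2 : ℝ) : UnitAddCircle)) = sawC ((2 : ℤ) • x) := by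
  induction x using QuotientAddGroup.induction_on with
  | H x =>
    have e1 : ((x : ℝ) : UnitAddCircle) + ((1 / 2 : ℝ) : UnitAddCircle) =
        ((x + 1 / 2 : ℝ) : UnitAddCircle) := rfl
    have e2 : (2 : ℤ) • ((x : ℝ) : UnitAddCircle) = ((2 * x : ℝ) : UnitAddCircle) := by
      rw [← AddCircle.coe_zsmul]
      simp
    change sawC (x : UnitAddCircle) + sawC ((x : UnitAddCircle) + _) =
      sawC ((2 : ℤ) • (x : UnitAddCircle))
    rw [e1, e2, sawC_coe, sawC_coe, sawC_coe]
    exact saw_half x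

lemma integral_sq_sawC : ∫ x : UnitAddCircle, sawC x ^ 2 = 1 / 12 := by
  rw [← UnitAddCircle.intervalIntegral_preimage 0]
  have h1 : ∫ x in (0 : ℝ)..0 + 1, sawC (x : UnitAddCircle) ^ 2 =
      ∫ x in (0 : ℝ)..0 + 1, (x - 1 / 2) ^ 2 := by
    refine intervalIntegral.integral_congr_ae ?_
    have h2 : ∀ᵐ x : ℝ, x ≠ 1 := by
      rw [ae_iff]
      simp
    filter_upwards [h2] with x hx hmem
    rw [zero_add, Set.uIoc_of_le zero_le_one] at hmem
    rw [sawC_coe, saw_of_mem hmem.1 (lt_of_le_of_ne hmem.2 hx)]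
  rw [h1, zero_add]
  have : ∀ x : ℝ, (x - 1 / 2) ^ 2 = x ^ 2 - x + 1 / 4 := fun x => by ring
  simp only [this]
  rw [intervalIntegral.integral_add (by
      exact (Continuous.intervalIntegrable (by fun_prop) _ _)) (by simp),
    intervalIntegral.integral_sub (by
      exact (Continuous.intervalIntegrable (by fun_prop) _ _)) (by simp), integral_pow,
    integral_id, intervalIntegral.integral_const]
  norm_num

variable {κ : Type*} [Fintype κ]

/-- The character of the torus attached to an integer vector. -/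
def chr (w : κ → ℤ) : (κ → UnitAddCircle) →+ UnitAddCircle where
  toFun θ := ∑ j, w j • θ j
  map_zero' := by simp
  map_add' x y := by simp [Finset.sum_add_distrib]

lemma chr_apply (w : κ → ℤ) (θ : κ → UnitAddCircle) : chr w θ = ∑ j, w j • θ j := rfl

lemma continuous_chr (w : κ → ℤ) : Continuous (chr w) := by
  change Continuous fun θ : κ → UnitAddCircle => ∑ j, w j • θ j
  exact continuous_finsetSum _ fun j _ => (continuous_apply j).zsmul (w j)

lemma chr_coe (w : κ → ℤ) (θ : κ → ℝ) :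
    chr w (fun j => (θ j : UnitAddCircle)) = ((dot w θ : ℝ) : UnitAddCircle) := by
  rw [chr_apply]
  unfold dot
  have : ((∑ j, (w j : ℝ) * θ j : ℝ) : UnitAddCircle) =
      ∑ j, (((w j : ℝ) * θ j : ℝ) : UnitAddCircle) :=
    map_sum (QuotientAddGroup.mk' (AddSubgroup.zmultiples (1 : ℝ))) _ _
  rw [this]
  refine Finset.sum_congr rfl fun j _ => ?_
  rw [← AddCircle.coe_zsmul, zsmul_eq_mul]

lemma chr_smul (c : ℤ) (w : κ → ℤ) (θ : κ → UnitAddCircle) :
    chr (c • w) θ = c • chr w θ := by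
  rw [chr_apply, chr_apply, Finset.smul_sum]
  refine Finset.sum_congr rfl fun j _ => ?_
  rw [Pi.smul_apply, smul_eq_mul, mul_smul]

omit [Fintype κ] in
lemma exists_lift (θ : κ → UnitAddCircle) :
    ∃ t : κ → ℝ, θ = fun j => ((t j : ℝ) : UnitAddCircle) := by
  have h : ∀ j, ∃ t : ℝ, (t : UnitAddCircle) = θ j := fun j =>
    QuotientAddGroup.mk_surjective (θ j)
  choose t ht using h
  exact ⟨t, funext fun j => (ht j).symm⟩

lemma coe_eq_zero_iff' {x : ℝ} : (x : UnitAddCircle) = 0 ↔ ∃ n : ℤ, x = n := by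
  rw [AddCircle.coe_eq_zero_iff]
  constructor
  · rintro ⟨n, hn⟩
    exact ⟨n, by rw [← hn]; simp⟩
  · rintro ⟨n, hn⟩
    exact ⟨n, by rw [hn]; simp⟩

lemma chr_surjective (w : κ → ℤ) (hw : w ≠ 0) : Function.Surjective (chr w) := by
  classical
  obtain ⟨j, hj⟩ := Function.ne_iff.1 hw
  have hj' : (w j : ℝ) ≠ 0 := by exact_mod_cast hj
  intro x
  obtain ⟨t, rfl⟩ := QuotientAddGroup.mk_surjective x
  refine ⟨fun k => ((Pi.single j (t / (w j : ℝ)) : κ → ℝ) k : UnitAddCircle), ?_⟩
  rw [chr_coe]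
  have : dot w (Pi.single j (t / (w j : ℝ))) = t := by
    unfold dot
    rw [Finset.sum_eq_single j]
    · rw [Pi.single_eq_same, mul_div_cancel₀ _ hj']
    · intro k _ hk
      rw [Pi.single_eq_of_ne hk, mul_zero]
    · intro h
      exact absurd (Finset.mem_univ _) h
  rw [this]

lemma volume_torus : (volume : Measure (κ → UnitAddCircle)) Set.univ = 1 := by
  rw [volume_pi, Measure.pi_univ]
  simp [UnitAddCircle.measure_univ]

lemma measurePreserving_chr (w : κ → ℤ) (hw : w ≠ 0) :
    MeasurePreserving (chr w) (volume : Measure (κ → UnitAddCircle)) volume := by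
  refine AddMonoidHom.measurePreserving (continuous_chr w) (chr_surjective w hw) ?_
  rw [volume_torus, UnitAddCircle.measure_univ]

lemma integral_chr (w : κ → ℤ) (hw : w ≠ 0) (f : UnitAddCircle → ℝ) (hf : Measurable f) :
    ∫ θ : κ → UnitAddCircle, f (chr w θ) = ∫ x : UnitAddCircle, f x := by
  rw [← (measurePreserving_chr w hw).map_eq, integral_map
    (continuous_chr w).measurable.aemeasurable hf.aestronglyMeasurable]

lemma integral_sq_chr (w : κ → ℤ) (hw : w ≠ 0) (c : UnitAddCircle) :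
    ∫ θ : κ → UnitAddCircle, sawC (chr w θ + c) ^ 2 = 1 / 12 := by
  rw [integral_chr w hw (fun x => sawC (x + c) ^ 2)
    ((measurable_sawC.comp (measurable_id.add_const c)).pow_const 2)]
  rw [integral_add_right_eq_self (fun x : UnitAddCircle => sawC x ^ 2) c]
  exact integral_sq_sawC

lemma ae_chr_ne_zero (w : κ → ℤ) (hw : w ≠ 0) :
    ∀ᵐ θ : κ → UnitAddCircle, chr w θ ≠ 0 := by
  have h : ∀ᵐ x : UnitAddCircle, x ≠ 0 := by
    rw [ae_iff]
    have h1 : {x : UnitAddCircle | ¬x ≠ 0} = Metric.closedBall 0 0 := by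
      ext x
      simp
    rw [h1, AddCircle.volume_closedBall]
    simp
  exact (measurePreserving_chr w hw).quasiMeasurePreserving.ae h

lemma integrable_prod (w w' : κ → ℤ) (c : UnitAddCircle) :
    Integrable (fun θ : κ → UnitAddCircle => sawC (chr w θ) * sawC (chr w' θ + c)) := by
  refine Integrable.of_bound (C := 1) ?_ (Filter.Eventually.of_forall fun θ => ?_)
  · exact ((measurable_sawC.comp (continuous_chr w).measurable).mul
      (measurable_sawC.comp ((continuous_chr w').measurable.add_const c))).aestronglyMeasurable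
  · rw [Real.norm_eq_abs, abs_mul]
    have h1 := abs_sawC (chr w θ)
    have h2 := abs_sawC (chr w' θ + c)
    have h3 := abs_nonneg (sawC (chr w θ))
    have h4 := abs_nonneg (sawC (chr w' θ + c))
    nlinarith

lemma integral_prod_double (w w' : κ → ℤ) (hw : w ≠ 0)
    (hind : ∀ a b : ℤ, a ≠ 0 → a • w' ≠ b • w) :
    2 * ∫ θ : κ → UnitAddCircle, sawC (chr w θ) * sawC (chr w' θ) =
      ∫ θ : κ → UnitAddCircle, sawC (chr w θ) * sawC (chr ((2 : ℤ) • w') θ) := by
  classical
  obtain ⟨η, hη1, hη2⟩ := exists_direction (∅ : Finset Unit) (fun _ => w') w hw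
    (fun _ _ a b ha => hind a b ha)
  have hη2 := hη2 () (by simp)
  set a : ℤ := ∑ j, w' j * η j with ha
  have har : (a : ℝ) ≠ 0 := by exact_mod_cast hη2
  let τr : κ → ℝ := (1 / (2 * (a : ℝ))) • fun j => (η j : ℝ)
  let τ : κ → UnitAddCircle := fun j => ((τr j : ℝ) : UnitAddCircle)
  have h1 : chr w τ = 0 := by
    rw [chr_coe, coe_eq_zero_iff']
    refine ⟨0, ?_⟩
    simp only [τr]
    rw [dot_smul, dot_int, hη1]
    simp
  have h2 : chr w' τ = ((1 / 2 : ℝ) : UnitAddCircle) := by
    rw [chr_coe]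
    congr 1
    simp only [τr]
    rw [dot_smul, dot_int, ← ha]
    field_simp
  have h3 : ∫ θ : κ → UnitAddCircle, sawC (chr w θ) * sawC (chr w' θ) =
      ∫ θ : κ → UnitAddCircle, sawC (chr w θ) *
        sawC (chr w' θ + ((1 / 2 : ℝ) : UnitAddCircle)) := by
    rw [← integral_add_right_eq_self
      (fun θ : κ → UnitAddCircle => sawC (chr w θ) * sawC (chr w' θ)) τ]
    refine integral_congr_ae (Filter.Eventually.of_forall fun θ => ?_)
    simp only [map_add, h1, h2, add_zero]
  have hi1 : Integrable (fun θ : κ → UnitAddCircle => sawC (chr w θ) * sawC (chr w' θ)) := by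
    simpa using integrable_prod w w' 0
  rw [two_mul]
  nth_rewrite 2 [h3]
  rw [← integral_add hi1 (integrable_prod w w' _)]
  refine integral_congr_ae (Filter.Eventually.of_forall fun θ => ?_)
  simp only
  rw [← mul_add, sawC_half, chr_smul]

/-- Orthogonality. -/
lemma integral_prod_zero (w w' : κ → ℤ) (hw : w ≠ 0)
    (hind : ∀ a b : ℤ, a ≠ 0 → a • w' ≠ b • w) :
    ∫ θ : κ → UnitAddCircle, sawC (chr w θ) * sawC (chr w' θ) = 0 := by
  have hpow : ∀ n : ℕ, (2 : ℝ) ^ n * ∫ θ : κ → UnitAddCircle, sawC (chr w θ) * sawC (chr w' θ) =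
      ∫ θ : κ → UnitAddCircle, sawC (chr w θ) * sawC (chr ((2 : ℤ) ^ n • w') θ) := by
    intro n
    induction n with
    | zero => simp
    | succ n ih =>
      rw [pow_succ, mul_comm ((2 : ℝ) ^ n) 2, mul_assoc, ih, integral_prod_double w _ hw]
      · simp only [smul_smul]
        rw [pow_succ, mul_comm]
      · intro a b ha h
        rw [smul_smul] at h
        exact hind (a * 2 ^ n) b (mul_ne_zero ha (pow_ne_zero _ two_ne_zero)) h
  have hbound : ∀ n : ℕ, |(2 : ℝ) ^ n *
      ∫ θ : κ → UnitAddCircle, sawC (chr w θ) * sawC (chr w' θ)| ≤ 1 := by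
    intro n
    rw [hpow n, ← Real.norm_eq_abs]
    refine (norm_integral_le_of_norm_le_const (C := 1)
      (Filter.Eventually.of_forall fun θ => ?_)).trans ?_
    · rw [Real.norm_eq_abs, abs_mul]
      have h1 := abs_sawC (chr w θ)
      have h2 := abs_sawC (chr ((2 : ℤ) ^ n • w') θ)
      have h3 := abs_nonneg (sawC (chr w θ))
      have h4 := abs_nonneg (sawC (chr ((2 : ℤ) ^ n • w') θ))
      nlinarith
    · simp [Measure.real, volume_torus]
  by_contra hne
  set I := ∫ θ : κ → UnitAddCircle, sawC (chr w θ) * sawC (chr w' θ) with hI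
  have hpos : 0 < |I| := abs_pos.2 hne
  obtain ⟨n, hn⟩ := pow_unbounded_of_one_lt (1 / |I|) (show (1 : ℝ) < 2 by norm_num)
  have h1 := hbound n
  rw [abs_mul, abs_of_pos (show (0 : ℝ) < 2 ^ n by positivity)] at h1
  rw [div_lt_iff₀ hpos] at hn
  linarith

/-- The second moment is the sum of the second moments of the classes. -/
theorem energy {ι γ : Type*} [Fintype ι] [Fintype γ] [DecidableEq γ] (v : ι → (κ → ℤ))
    (hv0 : ∀ i, v i ≠ 0) (hst : Stable v) (cls : ι → γ)
    (hcls : ∀ i j, cls i ≠ cls j → ∀ a b : ℤ, a ≠ 0 → a • v i ≠ b • v j) :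
    ∑ c, ∫ θ : κ → UnitAddCircle, (∑ i with cls i = c, sawC (chr (v i) θ)) ^ 2 = 1 / 4 := by
  classical
  have hint : ∀ i j, Integrable (fun θ : κ → UnitAddCircle =>
      sawC (chr (v i) θ) * sawC (chr (v j) θ)) := fun i j => by
    simpa using integrable_prod (v i) (v j) 0
  have h1 : ∫ θ : κ → UnitAddCircle, (∑ i, sawC (chr (v i) θ)) ^ 2 = 1 / 4 := by
    have hae : ∀ᵐ θ : κ → UnitAddCircle, (∑ i, sawC (chr (v i) θ)) ^ 2 = 1 / 4 := by
      have h2 : ∀ᵐ θ : κ → UnitAddCircle, ∀ i, chr (v i) θ ≠ 0 :=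
        ae_all_iff.2 fun i => ae_chr_ne_zero (v i) (hv0 i)
      filter_upwards [h2] with θ hθ
      obtain ⟨t, rfl⟩ := exists_lift θ
      have h3 : |∑ i, saw (dot (v i) t)| = 1 / 2 := by
        refine hst t fun i n hn => hθ i ?_
        rw [chr_coe, coe_eq_zero_iff']
        exact ⟨n, hn⟩
      rw [← sq_abs]
      simp only [chr_coe, sawC_coe]
      rw [h3]
      norm_num
    rw [integral_congr_ae hae]
    simp [Measure.real, volume_torus]
  have h2 : ∀ s : Finset ι, ∫ θ : κ → UnitAddCircle, (∑ i ∈ s, sawC (chr (v i) θ)) ^ 2 =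
      ∑ i ∈ s, ∑ j ∈ s, ∫ θ : κ → UnitAddCircle, sawC (chr (v i) θ) * sawC (chr (v j) θ) := by
    intro s
    have e1 : ∀ θ : κ → UnitAddCircle, (∑ i ∈ s, sawC (chr (v i) θ)) ^ 2 =
        ∑ i ∈ s, ∑ j ∈ s, sawC (chr (v i) θ) * sawC (chr (v j) θ) := by
      intro θ
      rw [sq, Finset.sum_mul_sum]
    simp only [e1]
    rw [integral_finsetSum _ fun i _ => integrable_finsetSum _ fun j _ => hint i j]
    refine Finset.sum_congr rfl fun i _ => ?_
    rw [integral_finsetSum _ fun j _ => hint i j]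
  simp only [h2]
  rw [← h1, h2]
  rw [← Finset.sum_fiberwise Finset.univ cls]
  refine Finset.sum_congr rfl fun c _ => ?_
  refine Finset.sum_congr rfl fun i hi => ?_
  rw [Finset.mem_filter] at hi
  refine Finset.sum_subset (Finset.subset_univ _) fun j _ hj => ?_
  rw [Finset.mem_filter, not_and] at hj
  have hij : cls j ≠ cls i := by
    rw [hi.2]
    exact hj (Finset.mem_univ _)
  exact integral_prod_zero (v i) (v j) (hv0 i) (hcls j i hij)

end Pool.Agent.LevelOne
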