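import Mathlib

/-!
# Averages of additive characters over the units
-/

set_option autoImplicit false

namespace Pool.Agent.LevelOne

open ZMod

/-- If all prime factors of `m` exceed `P`, the average over the units of a nontrivial additive
character is at most `1 / P`. -/
theorem avg_bound (m : ℕ) [NeZero m] (P : ℕ) (hP : ∀ p, p.Prime → p ∣ m → P < p)
    (b : ZMod m) (hb : b ≠ 0) :
    (P : ℝ) * ‖∑ t : (ZMod m)ˣ, stdAddChar ((t : ZMod m) * b)‖ ≤ Fintype.card (ZMod m)ˣ := by
  classical
  have hm : m ≠ 0 := NeZero.ne m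
  have hmb : (m : ℕ) • b = 0 := by simp
  set n := addOrderOf b with hn
  have hn1 : n ≠ 1 := fun h => hb (AddMonoid.addOrderOf_eq_one_iff.1 h)
  have hnm : n ∣ m := addOrderOf_dvd_of_nsmul_eq_zero hmb
  set p := n.minFac with hp
  have hpp : p.Prime := Nat.minFac_prime hn1
  have hpn : p ∣ n := Nat.minFac_dvd n
  have hpm : p ∣ m := hpn.trans hnm
  set m' := m / p ^ m.factorization p with hm'
  have hpm' : ¬ p ∣ m' := Nat.not_dvd_ordCompl hpp hm
  have hm'b : m' • b ≠ 0 := fun h => hpm' (hpn.trans (addOrderOf_dvd_of_nsmul_eq_zero h))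
  have hmul : p ^ m.factorization p * m' = m := Nat.ordProj_mul_ordCompl_eq_self m p
  have hex : ∃ k, (p ^ k * m') • b = 0 := ⟨_, by rw [hmul]; exact hmb⟩
  obtain ⟨k, hk, hkmin⟩ : ∃ k, (p ^ (k + 1) * m') • b = 0 ∧ (p ^ k * m') • b ≠ 0 := by
    have h1 := Nat.find_spec hex
    have h2 : Nat.find hex ≠ 0 := by
      intro h0
      rw [h0, pow_zero, one_mul] at h1
      exact hm'b h1
    obtain ⟨k, hk⟩ := Nat.exists_eq_succ_of_ne_zero h2
    rw [hk] at h1
    refine ⟨k, h1, fun h => ?_⟩
    have := Nat.find_min' hex h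
    omega
  set M := p ^ k * m' with hM
  have hpM : (p * M) • b = 0 := by
    rw [hM, ← mul_assoc, ← pow_succ']
    exact hk
  have hother : ∀ l, l.Prime → l ∣ m → l ≠ p → l ∣ M := by
    intro l hl hlm hlp
    rw [← hmul] at hlm
    rcases (Nat.Prime.dvd_mul hl).1 hlm with h | h
    · exact absurd ((Nat.prime_dvd_prime_iff_eq hl hpp).1 (hl.dvd_of_dvd_pow h)) hlp
    · exact dvd_mul_of_dvd_right h _
  let X := (Finset.range p).filter fun j => ¬ p ∣ 1 + j * M
  have hcop : ∀ j ∈ X, (1 + j * M).Coprime m := by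
    intro j hj
    rw [Finset.mem_filter] at hj
    refine Nat.coprime_of_dvd fun l hl hl1 hlm => ?_
    by_cases hlp : l = p
    · subst hlp
      exact hj.2 hl1
    · have h1 := hother l hl hlm hlp
      have h2 : l ∣ 1 := (Nat.dvd_add_left (dvd_mul_of_dvd_right h1 j)).1 hl1
      exact hl.one_lt.ne' (Nat.dvd_one.1 h2)
  let u : ℕ → (ZMod m)ˣ := fun j =>
    if h : (1 + j * M).Coprime m then ZMod.unitOfCoprime _ h else 1
  have hu : ∀ j ∈ X, ((u j : (ZMod m)ˣ) : ZMod m) = 1 + (j : ZMod m) * (M : ZMod m) := by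
    intro j hj
    simp only [u]
    rw [dif_pos (hcop j hj), ZMod.coe_unitOfCoprime]
    push_cast
    ring
  set S := ∑ t : (ZMod m)ˣ, stdAddChar ((t : ZMod m) * b) with hS
  have hshift : ∀ j ∈ X, ∑ t : (ZMod m)ˣ, stdAddChar ((t : ZMod m) * (1 + (j : ZMod m) * (M : ZMod m)) * b)
      = S := by
    intro j hj
    refine Eq.trans (Finset.sum_congr rfl fun t _ => ?_)
      (Equiv.sum_comp (Equiv.mulRight (u j)) fun t : (ZMod m)ˣ => stdAddChar ((t : ZMod m) * b))
    rw [Equiv.coe_mulRight, Units.val_mul, hu j hj]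
  -- the excluded residues
  have hexcl : ((Finset.range p).filter fun j => p ∣ 1 + j * M).card ≤ 1 := by
    rw [Finset.card_le_one]
    intro i hi j hj
    rw [Finset.mem_filter, Finset.mem_range] at hi hj
    have hpM' : ¬ p ∣ M := by
      intro h
      have h2 : p ∣ 1 := (Nat.dvd_add_left (dvd_mul_of_dvd_right h i)).1 hi.2
      exact hpp.one_lt.ne' (Nat.dvd_one.1 h2)
    have h1 : (p : ℤ) ∣ ((i : ℤ) - j) * M := by
      have h2 : (p : ℤ) ∣ ((1 + i * M : ℕ) : ℤ) - ((1 + j * M : ℕ) : ℤ) :=
        dvd_sub (by exact_mod_cast hi.2) (by exact_mod_cast hj.2)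
      have h3 : ((1 + i * M : ℕ) : ℤ) - ((1 + j * M : ℕ) : ℤ) = ((i : ℤ) - j) * M := by
        push_cast
        ring
      rwa [h3] at h2
    rcases Int.Prime.dvd_mul' hpp h1 with h2 | h2
    · have h3 : ((i : ℤ) - j) = 0 := by
        refine Int.eq_zero_of_abs_lt_dvd h2 ?_
        rw [abs_lt]
        constructor <;> omega
      omega
    · exact absurd (by exact_mod_cast h2) hpM'
  have hcardX : p ≤ X.card + 1 := by
    have h1 : X.card + ((Finset.range p).filter fun j => p ∣ 1 + j * M).card = p := by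
      have := Finset.card_filter_add_card_filter_not (s := Finset.range p)
        (fun j => p ∣ 1 + j * M)
      rw [Finset.card_range] at this
      simp only [X]
      omega
    omega
  -- the inner sums
  have hinner : ∀ t : (ZMod m)ˣ,
      ‖∑ j ∈ X, stdAddChar ((t : ZMod m) * (1 + (j : ZMod m) * (M : ZMod m)) * b)‖ ≤ 1 := by
    intro t
    set ω : ℂ := stdAddChar ((t : ZMod m) * (M : ZMod m) * b) with hω
    have hterm : ∀ j : ℕ, stdAddChar ((t : ZMod m) * (1 + (j : ZMod m) * (M : ZMod m)) * b) =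
        stdAddChar ((t : ZMod m) * b) * ω ^ j := by
      intro j
      rw [hω, ← AddChar.map_nsmul_eq_pow, ← AddChar.map_add_eq_mul]
      congr 1
      rw [nsmul_eq_mul]
      ring
    have hω1 : ω ≠ 1 := by
      intro h
      have h1 : (t : ZMod m) * (M : ZMod m) * b = 0 := by
        apply ZMod.injective_stdAddChar
        rw [← hω, h, AddChar.map_zero_eq_one]
      apply hkmin
      rw [nsmul_eq_mul]
      rw [mul_assoc] at h1
      exact (Units.mul_right_eq_zero t).1 h1
    have hωp : ω ^ p = 1 := by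
      rw [hω, ← AddChar.map_nsmul_eq_pow]
      have : p • ((t : ZMod m) * (M : ZMod m) * b) = t * ((p * M) • b) := by
        rw [nsmul_eq_mul, nsmul_eq_mul]
        push_cast
        ring
      rw [this, hpM, mul_zero, AddChar.map_zero_eq_one]
    have hgeom : ∑ j ∈ Finset.range p, ω ^ j = 0 := by
      have := geom_sum_mul ω p
      rw [hωp, sub_self] at this
      rcases mul_eq_zero.1 this with h | h
      · exact h
      · exact absurd (sub_eq_zero.1 h) hω1
    have hωn : ‖ω‖ = 1 := by
      rw [hω]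
      exact AddChar.norm_apply _ _
    simp only [hterm]
    rw [← Finset.mul_sum, norm_mul, AddChar.norm_apply, one_mul]
    have hsplit : ∑ j ∈ X, ω ^ j = -∑ j ∈ (Finset.range p).filter fun j => p ∣ 1 + j * M,
        ω ^ j := by
      have := Finset.sum_filter_add_sum_filter_not (Finset.range p) (fun j => p ∣ 1 + j * M)
        (fun j => ω ^ j)
      rw [hgeom] at this
      simp only [X]
      linear_combination this
    rw [hsplit, norm_neg]
    refine (norm_sum_le _ _).trans ?_
    simp only [norm_pow, hωn, one_pow, Finset.sum_const, nsmul_eq_mul, mul_one]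
    exact_mod_cast hexcl
  have htot : (X.card : ℂ) * S = ∑ t : (ZMod m)ˣ, ∑ j ∈ X,
      stdAddChar ((t : ZMod m) * (1 + (j : ZMod m) * (M : ZMod m)) * b) := by
    rw [Finset.sum_comm, Finset.sum_congr rfl hshift, Finset.sum_const, nsmul_eq_mul]
  have hnorm : (X.card : ℝ) * ‖S‖ ≤ Fintype.card (ZMod m)ˣ := by
    have h1 : ‖(X.card : ℂ) * S‖ = (X.card : ℝ) * ‖S‖ := by
      rw [norm_mul, Complex.norm_natCast]
    rw [← h1, htot]
    refine (norm_sum_le _ _).trans ?_
    refine (Finset.sum_le_sum fun t _ => hinner t).trans ?_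
    simp
  have hPX : (P : ℝ) ≤ X.card := by
    have := hP p hpp hpm
    have : P ≤ X.card := by omega
    exact_mod_cast this
  exact (mul_le_mul_of_nonneg_right hPX (norm_nonneg _)).trans hnorm

end Pool.Agent.LevelOne
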