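import Pool.Agent.Lib.MP_386e47_h75.Saw

/-!
# Sums of sawtooth functions in one variable
-/

set_option autoImplicit false

namespace Pool.Agent.LevelOne

variable {ι : Type*}

/-- The local shape of a sum of sawtooth functions. -/
lemma gsum_local (C : Finset ι) (q : ι → ℤ) (hq : ∀ i ∈ C, q i ≠ 0) (ρ : ℝ) :
    ∃ ε > 0, ∀ h : ℝ, h ≠ 0 → |h| < ε →
      (∀ i ∈ C, ∀ n : ℤ, (q i : ℝ) * (ρ + h) ≠ n) ∧
      gsum C q (ρ + h) = gsum C q ρ + (∑ i ∈ C, (q i : ℝ)) * h -
        ((SignType.sign h : SignType) : ℝ) * (jump C q ρ : ℝ) / 2 := by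
  classical
  induction C using Finset.induction_on with
  | empty => exact ⟨1, one_pos, fun h _ _ => by simp [gsum, jump]⟩
  | insert i C hi ih =>
    obtain ⟨ε, hε, h1⟩ := ih fun j hj => hq j (Finset.mem_insert_of_mem hj)
    obtain ⟨δ, hδ, h2⟩ := saw_local ((q i : ℝ) * ρ)
    have hqi : (q i : ℝ) ≠ 0 := by exact_mod_cast hq i (Finset.mem_insert_self _ _)
    have hqa : 0 < |(q i : ℝ)| := abs_pos.2 hqi
    refine ⟨min ε (δ / |(q i : ℝ)|), lt_min hε (div_pos hδ hqa), fun h h0 h3 => ?_⟩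
    obtain ⟨h4, h5⟩ := h1 h h0 (lt_of_lt_of_le h3 (min_le_left _ _))
    have h6 : |(q i : ℝ) * h| < δ := by
      rw [abs_mul, mul_comm]
      exact (lt_div_iff₀ hqa).1 (lt_of_lt_of_le h3 (min_le_right _ _))
    obtain ⟨h7, h8⟩ := h2 ((q i : ℝ) * h) (mul_ne_zero hqi h0) h6
    rw [← mul_add] at h7 h8
    refine ⟨?_, ?_⟩
    · intro j hj
      rcases Finset.mem_insert.1 hj with rfl | hj
      · exact h7
      · exact h4 j hj
    · unfold gsum jump at *
      rw [Finset.sum_insert hi, Finset.sum_insert hi, Finset.sum_insert hi, Finset.sum_insert hi,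
        h8, h5]
      have h9 : ((SignType.sign ((q i : ℝ) * h) : SignType) : ℝ) =
          (Int.sign (q i) : ℝ) * ((SignType.sign h : SignType) : ℝ) := by
        rw [sign_mul, SignType.coe_mul]
        congr 1
        rcases lt_trichotomy (q i) 0 with h | h | h
        · rw [Int.sign_eq_neg_one_of_neg h, sign_neg (by exact_mod_cast h)]
          simp
        · exact absurd h (hq i (Finset.mem_insert_self _ _))
        · rw [Int.sign_eq_one_of_pos h, sign_pos (by exact_mod_cast h)]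
          simp
      rw [h9]
      by_cases hf : Int.fract ((q i : ℝ) * ρ) = 0
      · rw [if_pos hf, if_pos hf]
        push_cast
        ring
      · rw [if_neg hf, if_neg hf]
        push_cast
        ring

/-- A point at which nothing is integral is not a jump. -/
lemma jump_eq_zero_of_generic (C : Finset ι) (q : ι → ℤ) (u : ℝ)
    (hu : ∀ i ∈ C, ∀ n : ℤ, (q i : ℝ) * u ≠ n) : jump C q u = 0 := by
  unfold jump
  refine Finset.sum_eq_zero fun i hi => ?_
  rw [if_neg]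
  intro h
  obtain ⟨n, hn⟩ := fract_eq_zero_iff.1 h
  exact hu i hi n hn

lemma jump_add_int (C : Finset ι) (q : ι → ℤ) (u : ℝ) (n : ℤ) :
    jump C q (u + n) = jump C q u := by
  unfold jump
  refine Finset.sum_congr rfl fun i _ => ?_
  have : (q i : ℝ) * (u + n) = (q i : ℝ) * u + ((q i * n : ℤ) : ℝ) := by push_cast; ring
  rw [this, Int.fract_add_intCast]

/-- Between two jumps the sum is affine. -/
lemma gsum_interval (C : Finset ι) (q : ι → ℤ) (hq : ∀ i ∈ C, q i ≠ 0) {a b : ℝ} (hab : a < b)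
    (h : ∀ x, a < x → x < b → jump C q x = 0) :
    gsum C q a - (∑ i ∈ C, (q i : ℝ)) * a - (jump C q a : ℝ) / 2 =
      gsum C q b - (∑ i ∈ C, (q i : ℝ)) * b + (jump C q b : ℝ) / 2 := by
  set σ : ℝ := ∑ i ∈ C, (q i : ℝ) with hσ
  let φ : ℝ → ℝ := fun x => gsum C q x - σ * x
  have hconst : ∀ x ∈ Set.Ioo a b, ∀ y ∈ Set.Ioo a b, φ x = φ y := by
    intro x hx y hy
    have hpc : PreconnectedSpace (Set.Ioo a b) :=
      isPreconnected_iff_preconnectedSpace.1 isPreconnected_Ioo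
    have hloc : IsLocallyConstant fun z : Set.Ioo a b => φ z := by
      rw [IsLocallyConstant.iff_eventually_eq]
      rintro ⟨z, hz⟩
      obtain ⟨ε, hε, h1⟩ := gsum_local C q hq z
      have h2 : ∀ᶠ w in nhds z, φ w = φ z := by
        rw [Metric.eventually_nhds_iff]
        refine ⟨ε, hε, fun w hw => ?_⟩
        rcases eq_or_ne w z with rfl | hne
        · rfl
        · have h3 := (h1 (w - z) (sub_ne_zero.2 hne) (by rwa [Real.dist_eq] at hw)).2
          rw [h z hz.1 hz.2] at h3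
          simp only [φ]
          rw [show z + (w - z) = w by ring] at h3
          rw [h3]
          push_cast
          ring
      exact (continuous_subtype_val.tendsto (⟨z, hz⟩ : Set.Ioo a b)).eventually h2
    exact hloc.apply_eq_of_preconnectedSpace ⟨x, hx⟩ ⟨y, hy⟩
  obtain ⟨ε, hε, h1⟩ := gsum_local C q hq a
  obtain ⟨δ, hδ, h2⟩ := gsum_local C q hq b
  obtain ⟨s, hs0, hs⟩ := exists_between (show (0 : ℝ) < min ε (b - a) from
    lt_min hε (by linarith))
  obtain ⟨t, ht0, ht⟩ := exists_between (show (0 : ℝ) < min δ (b - a) from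
    lt_min hδ (by linarith))
  have hs1 := lt_of_lt_of_le hs (min_le_left _ _)
  have hs2 := lt_of_lt_of_le hs (min_le_right _ _)
  have ht1 := lt_of_lt_of_le ht (min_le_left _ _)
  have ht2 := lt_of_lt_of_le ht (min_le_right _ _)
  have h3 := (h1 s hs0.ne' (by rwa [abs_of_pos hs0])).2
  have h4 := (h2 (-t) (by linarith [ht0] : (-t : ℝ) < 0).ne (by rwa [abs_neg, abs_of_pos ht0])).2
  have h5 := hconst (a + s) ⟨by linarith, by linarith⟩ (b + -t) ⟨by linarith, by linarith⟩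
  simp only [φ] at h5
  rw [h3, h4, sign_pos hs0, sign_neg (by linarith : -t < 0), SignType.coe_one,
    SignType.coe_neg_one, ← hσ] at h5
  linarith

/-- The next jump to the right. -/
lemma exists_next (C : Finset ι) (q : ι → ℤ) (hq : ∀ i ∈ C, q i ≠ 0) (u : ℝ)
    (h : ∃ d, u < d ∧ jump C q d ≠ 0) :
    ∃ ρ, u < ρ ∧ jump C q ρ ≠ 0 ∧ ∀ x, u < x → x < ρ → jump C q x = 0 := by
  have hdisc : ∀ z : ℝ, ∃ ε > 0, ∀ w, w ≠ z → |w - z| < ε → jump C q w = 0 := by
    intro z
    obtain ⟨ε, hε, h1⟩ := gsum_local C q hq z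
    refine ⟨ε, hε, fun w hw hwz => ?_⟩
    have h2 := (h1 (w - z) (sub_ne_zero.2 hw) hwz).1
    rw [show z + (w - z) = w by ring] at h2
    exact jump_eq_zero_of_generic C q w h2
  let S : Set ℝ := {d | u < d ∧ jump C q d ≠ 0}
  have hS : S.Nonempty := h
  have hbdd : BddBelow S := ⟨u, fun d hd => hd.1.le⟩
  obtain ⟨ε, hε, h1⟩ := hdisc (sInf S)
  obtain ⟨d, hd, hd2⟩ := exists_lt_of_csInf_lt hS (show sInf S < sInf S + ε by linarith)
  have hd3 : sInf S ≤ d := csInf_le hbdd hd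
  have hmem : d = sInf S := by
    by_contra hne
    exact hd.2 (h1 d hne (by rw [abs_of_nonneg (by linarith)]; linarith))
  rw [← hmem] at hd3
  refine ⟨d, hd.1, hd.2, fun x hx hxd => ?_⟩
  by_contra hne
  have := csInf_le hbdd (show x ∈ S from ⟨hx, hne⟩)
  rw [← hmem] at this
  linarith

lemma jump_neg (C : Finset ι) (q : ι → ℤ) (u : ℝ) : jump C q (-u) = jump C q u := by
  unfold jump
  refine Finset.sum_congr rfl fun i _ => ?_
  have : Int.fract ((q i : ℝ) * -u) = 0 ↔ Int.fract ((q i : ℝ) * u) = 0 := by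
    rw [mul_neg, fract_eq_zero_iff, fract_eq_zero_iff]
    constructor
    · rintro ⟨n, hn⟩
      exact ⟨-n, by push_cast; linarith⟩
    · rintro ⟨n, hn⟩
      exact ⟨-n, by push_cast; linarith⟩
  by_cases hf : Int.fract ((q i : ℝ) * u) = 0
  · rw [if_pos hf, if_pos (this.2 hf)]
  · rw [if_neg hf, if_neg fun h => hf (this.1 h)]

/-- The next jump to the left. -/
lemma exists_prev (C : Finset ι) (q : ι → ℤ) (hq : ∀ i ∈ C, q i ≠ 0) (u : ℝ)
    (h : ∃ d, d < u ∧ jump C q d ≠ 0) :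
    ∃ ρ, ρ < u ∧ jump C q ρ ≠ 0 ∧ ∀ x, ρ < x → x < u → jump C q x = 0 := by
  obtain ⟨d, hd, hd2⟩ := h
  obtain ⟨ρ, h1, h2, h3⟩ := exists_next C q hq (-u)
    ⟨-d, by linarith, by rwa [jump_neg]⟩
  refine ⟨-ρ, by linarith, by rwa [jump_neg], fun x hx hxu => ?_⟩
  have := h3 (-x) (by linarith) (by linarith)
  rwa [jump_neg] at this

/-- The element of largest absolute value produces a jump. -/
lemma exists_max (C : Finset ι) (q : ι → ℤ) (hC : C.Nonempty) (hq : ∀ i ∈ C, q i ≠ 0)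
    (hp : ∀ i ∈ C, ∀ j ∈ C, q i + q j ≠ 0) :
    ∃ i ∈ C, (∀ j ∈ C, |q j| ≤ |q i|) ∧
      jump C q (1 / (|q i| : ℤ)) = Int.sign (q i) * (C.filter fun j => q j = q i).card := by
  classical
  obtain ⟨i, hi, hmax⟩ := Finset.exists_max_image C (fun j => |q j|) hC
  refine ⟨i, hi, hmax, ?_⟩
  have hqi := hq i hi
  have hpos : (0 : ℝ) < ((|q i| : ℤ) : ℝ) := by exact_mod_cast abs_pos.2 hqi
  unfold jump
  rw [Finset.card_filter, Nat.cast_sum, Finset.mul_sum]
  refine Finset.sum_congr rfl fun j hj => ?_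
  have hqj := hq j hj
  by_cases hji : q j = q i
  · rw [if_pos hji, hji, if_pos]
    · simp
    · rw [fract_eq_zero_iff]
      refine ⟨Int.sign (q i), ?_⟩
      rw [mul_one_div, div_eq_iff hpos.ne']
      exact_mod_cast (Int.sign_mul_abs (q i)).symm
  · rw [if_neg hji, if_neg]
    · simp
    · intro h
      obtain ⟨n, hn⟩ := fract_eq_zero_iff.1 h
      rw [mul_one_div, div_eq_iff hpos.ne'] at hn
      have hn' : q j = n * |q i| := by exact_mod_cast hn
      have h1 : |q j| ≤ |q i| := hmax j hj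
      have hn0 : n ≠ 0 := by
        rintro rfl
        simp at hn'
        exact hqj hn'
      have h2 : |q j| = |n| * |q i| := by rw [hn', abs_mul, abs_abs]
      have h3 : 0 < |q i| := abs_pos.2 hqi
      have h4 : |n| ≤ 1 := by
        by_contra hcon
        push Not at hcon
        nlinarith
      have h5 : 1 ≤ |n| := Int.one_le_abs hn0
      have h6 : |q j| = |q i| := by rw [h2, le_antisymm h4 h5, one_mul]
      rcases abs_eq_abs.1 h6 with h7 | h7
      · exact hji h7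
      · exact hp j hj i hi (by rw [h7]; ring)

lemma jump_max_ne_zero (C : Finset ι) (q : ι → ℤ) (hC : C.Nonempty) (hq : ∀ i ∈ C, q i ≠ 0)
    (hp : ∀ i ∈ C, ∀ j ∈ C, q i + q j ≠ 0) :
    ∃ ρ : ℝ, jump C q ρ ≠ 0 := by
  classical
  obtain ⟨i, hi, -, h⟩ := exists_max C q hC hq hp
  refine ⟨1 / (|q i| : ℤ), fun h0 => ?_⟩
  rw [h] at h0
  rcases mul_eq_zero.1 h0 with h1 | h1
  · exact hq i hi (Int.sign_eq_zero_iff_zero.1 h1)
  · have : (C.filter fun j => q j = q i).card = 0 := by exact_mod_cast h1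
    rw [Finset.card_eq_zero] at this
    have h2 : i ∈ C.filter fun j => q j = q i := Finset.mem_filter.2 ⟨hi, rfl⟩
    rw [this] at h2
    simp at h2

/-- A set without jumps is empty. -/
lemma eq_empty_of_jump (C : Finset ι) (q : ι → ℤ) (hq : ∀ i ∈ C, q i ≠ 0)
    (hp : ∀ i ∈ C, ∀ j ∈ C, q i + q j ≠ 0) (h : ∀ ρ, jump C q ρ = 0) : C = ∅ := by
  by_contra hne
  obtain ⟨ρ, hρ⟩ := jump_max_ne_zero C q (Finset.nonempty_iff_ne_empty.2 hne) hq hp
  exact hρ (h ρ)

lemma jump_insert [DecidableEq ι] (C : Finset ι) (q : ι → ℤ) {i : ι} (hi : i ∈ C) (ρ : ℝ) :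
    jump C q ρ = jump (C.erase i) q ρ +
      (if Int.fract ((q i : ℝ) * ρ) = 0 then Int.sign (q i) else 0) := by
  unfold jump
  rw [Finset.sum_erase_add _ _ hi]

/-- Divisibility read off from an integral multiple. -/
lemma le_of_fract {a M : ℤ} (ha : a ≠ 0) (hM : 0 < M)
    (h : Int.fract ((a : ℝ) * (1 / (M : ℝ))) = 0) : M ≤ |a| := by
  obtain ⟨n, hn⟩ := fract_eq_zero_iff.1 h
  have hM' : (0 : ℝ) < M := by exact_mod_cast hM
  rw [mul_one_div, div_eq_iff hM'.ne'] at hn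
  have hn' : a = n * M := by exact_mod_cast hn
  have hn0 : n ≠ 0 := by
    rintro rfl
    simp at hn'
    exact ha hn'
  rw [hn', abs_mul, abs_of_pos hM]
  have := Int.one_le_abs hn0
  nlinarith

lemma exists_le_of_jump (C : Finset ι) (q : ι → ℤ) (hq : ∀ i ∈ C, q i ≠ 0) {M : ℤ} (hM : 0 < M)
    (h : jump C q (1 / (M : ℝ)) ≠ 0) : ∃ j ∈ C, M ≤ |q j| := by
  unfold jump at h
  obtain ⟨j, hj, hj2⟩ := Finset.exists_ne_zero_of_sum_ne_zero h
  refine ⟨j, hj, le_of_fract (hq j hj) hM ?_⟩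
  by_contra hne
  rw [if_neg hne] at hj2
  exact hj2 rfl

/-- From the value of the jump at the inverse of the largest absolute value. -/
lemma max_unique {s t : ℤ} {c : ℕ} (hs : s = 1 ∨ s = -1) (ht : t = 1 ∨ t = -1)
    (h : s * c = t) : c = 1 ∧ s = t := by
  have hc : (c : ℤ) = 1 := by
    have h1 : |s * c| = |t| := by rw [h]
    rw [abs_mul] at h1
    have h2 : |s| = 1 := by rcases hs with rfl | rfl <;> simp
    have h3 : |t| = 1 := by rcases ht with rfl | rfl <;> simp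
    rw [h2, h3, one_mul] at h1
    simpa using h1
  refine ⟨by exact_mod_cast hc, ?_⟩
  rw [hc, mul_one] at h
  exact h

lemma sign_eq_or {a : ℤ} (ha : a ≠ 0) : Int.sign a = 1 ∨ Int.sign a = -1 := by
  rcases lt_trichotomy a 0 with h | h | h
  · exact Or.inr (Int.sign_eq_neg_one_of_neg h)
  · exact absurd h ha
  · exact Or.inl (Int.sign_eq_one_of_pos h)

lemma eq_of_sign_abs {a b : ℤ} (h1 : Int.sign a = Int.sign b) (h2 : |a| = |b|) : a = b := by
  rw [← Int.sign_mul_abs a, ← Int.sign_mul_abs b, h1, h2]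

/-- If the jumps are those of `τ u`, then the set has exactly one element. -/
lemma single_of_jump (C : Finset ι) (q : ι → ℤ) (hq : ∀ i ∈ C, q i ≠ 0)
    (hp : ∀ i ∈ C, ∀ j ∈ C, q i + q j ≠ 0) (τ : ℤ) (hτ : τ ≠ 0)
    (h : ∀ ρ : ℝ, jump C q ρ = if Int.fract ((τ : ℝ) * ρ) = 0 then Int.sign τ else 0) :
    ∃ i, C = {i} ∧ q i = τ := by
  classical
  have hτa : 0 < |τ| := abs_pos.2 hτ
  have hτr : (0 : ℝ) < ((|τ| : ℤ) : ℝ) := by exact_mod_cast hτa
  have hfr : Int.fract ((τ : ℝ) * (1 / ((|τ| : ℤ) : ℝ))) = 0 := by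
    rw [fract_eq_zero_iff]
    refine ⟨Int.sign τ, ?_⟩
    rw [mul_one_div, div_eq_iff hτr.ne']
    exact_mod_cast (Int.sign_mul_abs τ).symm
  have h1 : jump C q (1 / ((|τ| : ℤ) : ℝ)) = Int.sign τ := by
    rw [h, if_pos hfr]
  have hsτ : Int.sign τ ≠ 0 := fun h0 => hτ (Int.sign_eq_zero_iff_zero.1 h0)
  obtain ⟨j, hj, hjτ⟩ := exists_le_of_jump C q hq hτa (by rw [h1]; exact hsτ)
  obtain ⟨i, hi, hmax, hi2⟩ := exists_max C q ⟨j, hj⟩ hq hp
  have hqi := hq i hi
  have hMa : 0 < |q i| := abs_pos.2 hqi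
  have hle1 : |τ| ≤ |q i| := hjτ.trans (hmax j hj)
  have hcnt : ((C.filter fun j => q j = q i).card : ℤ) ≠ 0 := by
    have : (C.filter fun j => q j = q i).card ≠ 0 := by
      rw [Finset.card_ne_zero]
      exact ⟨i, Finset.mem_filter.2 ⟨hi, rfl⟩⟩
    exact_mod_cast this
  have hsi : Int.sign (q i) ≠ 0 := fun h0 => hqi (Int.sign_eq_zero_iff_zero.1 h0)
  have hle2 : |q i| ≤ |τ| := by
    refine le_of_fract hτ hMa ?_
    by_contra hne
    rw [h, if_neg hne] at hi2
    exact mul_ne_zero hsi hcnt hi2.symm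
  have habs : |q i| = |τ| := le_antisymm hle2 hle1
  rw [habs, h1] at hi2
  obtain ⟨hc1, hs1⟩ := max_unique (sign_eq_or hqi) (sign_eq_or hτ) hi2.symm
  have hqτ : q i = τ := eq_of_sign_abs hs1 habs
  have hempty : C.erase i = ∅ := by
    refine eq_empty_of_jump _ q (fun k hk => hq k (Finset.mem_of_mem_erase hk))
      (fun k hk l hl => hp k (Finset.mem_of_mem_erase hk) l (Finset.mem_of_mem_erase hl))
      fun ρ => ?_
    have h2 := jump_insert C q hi ρ
    rw [h, hqτ] at h2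
    linarith
  refine ⟨i, ?_, hqτ⟩
  rw [← Finset.insert_erase hi, hempty]
  rfl

/-- Two sums which agree at generic points and have the same slope have the same jumps. -/
lemma jump_eq_of_gsum_eq {ι' : Type*} (C : Finset ι) (q : ι → ℤ) (hq : ∀ i ∈ C, q i ≠ 0)
    (C' : Finset ι') (q' : ι' → ℤ) (hq' : ∀ i ∈ C', q' i ≠ 0)
    (hslope : ∑ i ∈ C, (q i : ℝ) = ∑ i ∈ C', (q' i : ℝ))
    (h : ∀ u : ℝ, (∀ i ∈ C, ∀ n : ℤ, (q i : ℝ) * u ≠ n) →
      (∀ i ∈ C', ∀ n : ℤ, (q' i : ℝ) * u ≠ n) → gsum C q u = gsum C' q' u) (ρ : ℝ) :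
    jump C q ρ = jump C' q' ρ := by
  obtain ⟨ε, hε, h1⟩ := gsum_local C q hq ρ
  obtain ⟨δ, hδ, h2⟩ := gsum_local C' q' hq' ρ
  obtain ⟨s, hs0, hs⟩ := exists_between (show (0 : ℝ) < min ε δ from lt_min hε hδ)
  have hs1 := lt_of_lt_of_le hs (min_le_left _ _)
  have hs2 := lt_of_lt_of_le hs (min_le_right _ _)
  have hneg : (-s : ℝ) < 0 := by linarith
  obtain ⟨a1, a2⟩ := h1 s hs0.ne' (by rwa [abs_of_pos hs0])
  obtain ⟨b1, b2⟩ := h1 (-s) hneg.ne (by rwa [abs_neg, abs_of_pos hs0])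
  obtain ⟨c1, c2⟩ := h2 s hs0.ne' (by rwa [abs_of_pos hs0])
  obtain ⟨d1, d2⟩ := h2 (-s) hneg.ne (by rwa [abs_neg, abs_of_pos hs0])
  have e1 := h (ρ + s) a1 c1
  have e2 := h (ρ + -s) b1 d1
  rw [a2, c2, sign_pos hs0, SignType.coe_one, hslope] at e1
  rw [b2, d2, sign_neg hneg, SignType.coe_neg_one, hslope] at e2
  have : (jump C q ρ : ℝ) = jump C' q' ρ := by linarith
  exact_mod_cast this

/-- The sum of sawtooth functions modulo one. -/
lemma gsum_mod (C : Finset ι) (q : ι → ℤ) (u : ℝ)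
    (hu : ∀ i ∈ C, ∀ n : ℤ, (q i : ℝ) * u ≠ n) :
    ∃ n : ℤ, gsum C q u = (∑ i ∈ C, (q i : ℝ)) * u - (C.card : ℝ) / 2 - n := by
  refine ⟨∑ i ∈ C, ⌊(q i : ℝ) * u⌋, ?_⟩
  unfold gsum
  rw [Finset.sum_congr rfl fun i hi => saw_of_ne (hu i hi)]
  rw [Finset.sum_sub_distrib, Finset.sum_const, Finset.sum_mul]
  simp only [Int.fract]
  rw [Finset.sum_sub_distrib]
  push_cast
  simp
  ring

/-- The structure of a class. -/
theorem class_structure (C : Finset ι) (q : ι → ℤ) (hC : C.Nonempty) (hq : ∀ i ∈ C, q i ≠ 0)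
    (hp : ∀ i ∈ C, ∀ j ∈ C, q i + q j ≠ 0)
    (hJ : ∀ ρ, jump C q ρ ≠ 0 → |jump C q ρ| = 1 ∧ gsum C q ρ = 0) :
    (∑ i ∈ C, q i ≠ 0 ∧ ((∃ i, C = {i}) ∨
      ∃ i j, i ≠ j ∧ (∀ x, x ∈ C ↔ x = i ∨ x = j) ∧ q i = -2 * q j)) ∨
      (∑ i ∈ C, q i = 0 ∧
        ∀ u : ℝ, (∀ i ∈ C, ∀ n : ℤ, (q i : ℝ) * u ≠ n) → |gsum C q u| = 1 / 2) := by
  classical
  set σ : ℤ := ∑ i ∈ C, q i with hσ
  have hσr : (σ : ℝ) = ∑ i ∈ C, (q i : ℝ) := by rw [hσ]; push_cast; rfl
  obtain ⟨ρ0, hρ0⟩ := jump_max_ne_zero C q hC hq hp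
  -- the two formulas for the value at a generic point
  have hform : ∀ u : ℝ, (∀ i ∈ C, ∀ n : ℤ, (q i : ℝ) * u ≠ n) →
      (∃ ρ > u, ∃ j : ℤ, |j| = 1 ∧ gsum C q u = σ * (u - ρ) + (j : ℝ) / 2) ∧
      (∃ ρ < u, ∃ j : ℤ, |j| = 1 ∧ gsum C q u = σ * (u - ρ) - (j : ℝ) / 2) := by
    intro u hu
    have hj0 := jump_eq_zero_of_generic C q u hu
    constructor
    · obtain ⟨ρ, h1, h2, h3⟩ := exists_next C q hq u (by
        obtain ⟨n, hn⟩ := exists_nat_gt (u - ρ0)
        refine ⟨ρ0 + (n : ℤ), by push_cast; linarith, by rwa [jump_add_int]⟩)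
      obtain ⟨h4, h5⟩ := hJ ρ h2
      have h6 := gsum_interval C q hq h1 h3
      rw [hj0, h5, ← hσr] at h6
      refine ⟨ρ, h1, jump C q ρ, h4, ?_⟩
      push_cast at h6
      linarith
    · obtain ⟨ρ, h1, h2, h3⟩ := exists_prev C q hq u (by
        obtain ⟨n, hn⟩ := exists_nat_gt (ρ0 - u)
        refine ⟨ρ0 + (-n : ℤ), by push_cast; linarith, by rwa [jump_add_int]⟩)
      obtain ⟨h4, h5⟩ := hJ ρ h2
      have h6 := gsum_interval C q hq h1 h3
      rw [hj0, h5, ← hσr] at h6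
      refine ⟨ρ, h1, jump C q ρ, h4, ?_⟩
      push_cast at h6
      linarith
  have hval : ∀ j : ℤ, |j| = 1 → (j : ℝ) = 1 ∨ (j : ℝ) = -1 := by
    intro j hj
    rcases (abs_eq (by norm_num : (0 : ℤ) ≤ 1)).1 hj with rfl | rfl
    · left; norm_num
    · right; norm_num
  by_cases hσ0 : σ = 0
  · right
    refine ⟨hσ0, fun u hu => ?_⟩
    obtain ⟨⟨ρ, -, j, hj, h1⟩, -⟩ := hform u hu
    rw [h1, hσ0]
    rcases hval j hj with h2 | h2 <;> rw [h2] <;> norm_num [abs_of_pos]
  left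
  refine ⟨hσ0, ?_⟩
  have hlt : ∀ u : ℝ, (∀ i ∈ C, ∀ n : ℤ, (q i : ℝ) * u ≠ n) → |gsum C q u| < 1 / 2 := by
    intro u hu
    obtain ⟨⟨ρ, h1, j, hj, h2⟩, ⟨ρ', h1', j', hj', h2'⟩⟩ := hform u hu
    have h3 : (-1 : ℝ) ≤ j ∧ (j : ℝ) ≤ 1 := by
      rcases hval j hj with h | h <;> rw [h] <;> norm_num
    have h3' : (-1 : ℝ) ≤ j' ∧ (j' : ℝ) ≤ 1 := by
      rcases hval j' hj' with h | h <;> rw [h] <;> norm_num
    rw [abs_lt]
    rcases lt_or_gt_of_ne hσ0 with h | h
    · have h4 : (σ : ℝ) < 0 := by exact_mod_cast h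
      have h5 : 0 < (σ : ℝ) * (u - ρ) := mul_pos_of_neg_of_neg h4 (by linarith)
      have h6 : (σ : ℝ) * (u - ρ') < 0 := mul_neg_of_neg_of_pos h4 (by linarith)
      constructor <;> linarith
    · have h4 : (0 : ℝ) < σ := by exact_mod_cast h
      have h5 : (σ : ℝ) * (u - ρ) < 0 := mul_neg_of_pos_of_neg h4 (by linarith)
      have h6 : 0 < (σ : ℝ) * (u - ρ') := mul_pos h4 (by linarith)
      constructor <;> linarith
  rcases Nat.even_or_odd C.card with hpar | hpar
  · -- an even number of elements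
    right
    obtain ⟨c, hc⟩ := hpar
    have hfun : ∀ u : ℝ, (∀ i ∈ C, ∀ n : ℤ, (q i : ℝ) * u ≠ n) →
        gsum C q u = saw (((2 * σ : ℤ) : ℝ) * u) - saw ((σ : ℝ) * u) := by
      intro u hu
      obtain ⟨n, hn⟩ := gsum_mod C q u hu
      have h1 := abs_lt.1 (hlt u hu)
      have h2 : saw ((σ : ℝ) * u) + saw ((σ : ℝ) * u + 1 / 2) = saw (((2 * σ : ℤ) : ℝ) * u) := by
        rw [saw_half]
        congr 1
        push_cast
        ring
      have h3 : saw ((σ : ℝ) * u + 1 / 2) = gsum C q u := by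
        rw [← hσr, hc] at hn
        push_cast at hn
        rw [saw_of_mem_int (n + c) (by push_cast; linarith) (by push_cast; linarith)]
        push_cast
        linarith
      linarith
    let q2 : Fin 2 → ℤ := ![2 * σ, -σ]
    have hjump : ∀ ρ : ℝ, jump C q ρ = (if Int.fract (((2 * σ : ℤ) : ℝ) * ρ) = 0 then
        Int.sign σ else 0) - (if Int.fract ((σ : ℝ) * ρ) = 0 then Int.sign σ else 0) := by
      intro ρ
      rw [jump_eq_of_gsum_eq C q hq (Finset.univ : Finset (Fin 2)) q2 (by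
        intro i _
        fin_cases i
        · simp only [q2]; simpa using hσ0
        · simp only [q2]; simpa using hσ0) (by
        rw [← hσr, Fin.sum_univ_two]
        simp only [q2, Matrix.cons_val_zero, Matrix.cons_val_one]
        push_cast
        ring) (by
        intro u hu _
        rw [hfun u hu]
        unfold gsum
        rw [Fin.sum_univ_two]
        simp only [q2, Matrix.cons_val_zero, Matrix.cons_val_one]
        have : (((-σ : ℤ) : ℝ) * u) = -((σ : ℝ) * u) := by push_cast; ring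
        rw [this, saw_neg]
        ring) ρ]
      unfold jump
      rw [Fin.sum_univ_two]
      simp only [q2, Matrix.cons_val_zero, Matrix.cons_val_one]
      have e1 : Int.sign (2 * σ) = Int.sign σ := by
        rw [Int.sign_mul, show Int.sign 2 = 1 from rfl, one_mul]
      have e2 : Int.fract (((-σ : ℤ) : ℝ) * ρ) = 0 ↔ Int.fract ((σ : ℝ) * ρ) = 0 := by
        rw [fract_eq_zero_iff, fract_eq_zero_iff]
        constructor
        · rintro ⟨n, hn⟩
          exact ⟨-n, by push_cast at hn ⊢; linarith⟩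
        · rintro ⟨n, hn⟩
          exact ⟨-n, by push_cast; linarith⟩
      rw [e1, Int.sign_neg]
      by_cases hf : Int.fract ((σ : ℝ) * ρ) = 0
      · rw [if_pos (e2.2 hf), if_pos hf]
        ring
      · rw [if_neg fun h => hf (e2.1 h), if_neg hf]
        ring
    have hσa : 0 < |2 * σ| := abs_pos.2 (by omega)
    have hσar : (0 : ℝ) < ((|2 * σ| : ℤ) : ℝ) := by exact_mod_cast hσa
    have hf1 : Int.fract (((2 * σ : ℤ) : ℝ) * (1 / ((|2 * σ| : ℤ) : ℝ))) = 0 := by
      rw [fract_eq_zero_iff]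
      refine ⟨Int.sign (2 * σ), ?_⟩
      rw [mul_one_div, div_eq_iff hσar.ne']
      exact_mod_cast (Int.sign_mul_abs (2 * σ)).symm
    have hf2 : Int.fract ((σ : ℝ) * (1 / ((|2 * σ| : ℤ) : ℝ))) ≠ 0 := by
      intro h0
      have := le_of_fract hσ0 hσa h0
      rw [abs_mul] at this
      have h1 : 0 < |σ| := abs_pos.2 hσ0
      norm_num at this
      linarith
    have hs0 : Int.sign σ ≠ 0 := fun h0 => hσ0 (Int.sign_eq_zero_iff_zero.1 h0)
    have hj1 : jump C q (1 / ((|2 * σ| : ℤ) : ℝ)) = Int.sign σ := by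
      rw [hjump, if_pos hf1, if_neg hf2, sub_zero]
    obtain ⟨j, hj, hjle⟩ := exists_le_of_jump C q hq hσa (by rw [hj1]; exact hs0)
    obtain ⟨i, hi, hmax, hi2⟩ := exists_max C q hC hq hp
    have hqi := hq i hi
    have hMa : 0 < |q i| := abs_pos.2 hqi
    have hle1 : |2 * σ| ≤ |q i| := hjle.trans (hmax j hj)
    have hcnt : ((C.filter fun j => q j = q i).card : ℤ) ≠ 0 := by
      have : (C.filter fun j => q j = q i).card ≠ 0 := by
        rw [Finset.card_ne_zero]
        exact ⟨i, Finset.mem_filter.2 ⟨hi, rfl⟩⟩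
      exact_mod_cast this
    have hsi : Int.sign (q i) ≠ 0 := fun h0 => hqi (Int.sign_eq_zero_iff_zero.1 h0)
    have hle2 : |q i| ≤ |2 * σ| := by
      refine le_of_fract (by omega) hMa ?_
      by_contra hne
      have hne2 : Int.fract ((σ : ℝ) * (1 / ((|q i| : ℤ) : ℝ))) ≠ 0 := by
        intro h0
        apply hne
        obtain ⟨n, hn⟩ := fract_eq_zero_iff.1 h0
        rw [fract_eq_zero_iff]
        exact ⟨2 * n, by push_cast; push_cast at hn; linarith⟩
      rw [hjump, if_neg hne, if_neg hne2, sub_zero] at hi2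
      exact mul_ne_zero hsi hcnt hi2.symm
    have habs : |q i| = |2 * σ| := le_antisymm hle2 hle1
    rw [habs, hj1] at hi2
    obtain ⟨hc1, hs1⟩ := max_unique (sign_eq_or hqi) (sign_eq_or hσ0) hi2.symm
    have hqσ : q i = 2 * σ := by
      refine eq_of_sign_abs ?_ habs
      rw [hs1, Int.sign_mul, show Int.sign 2 = 1 from rfl, one_mul]
    obtain ⟨k, hk, hqk⟩ := single_of_jump (C.erase i) q
      (fun k hk => hq k (Finset.mem_of_mem_erase hk))
      (fun k hk l hl => hp k (Finset.mem_of_mem_erase hk) l (Finset.mem_of_mem_erase hl))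
      (-σ) (by omega) (fun ρ => by
        have h2 := jump_insert C q hi ρ
        rw [hjump, hqσ] at h2
        have e1 : Int.sign (2 * σ) = Int.sign σ := by
          rw [Int.sign_mul, show Int.sign 2 = 1 from rfl, one_mul]
        have e2 : Int.fract (((-σ : ℤ) : ℝ) * ρ) = 0 ↔ Int.fract ((σ : ℝ) * ρ) = 0 := by
          rw [fract_eq_zero_iff, fract_eq_zero_iff]
          constructor
          · rintro ⟨n, hn⟩
            exact ⟨-n, by push_cast at hn ⊢; linarith⟩
          · rintro ⟨n, hn⟩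
            exact ⟨-n, by push_cast; linarith⟩
        rw [e1] at h2
        rw [Int.sign_neg]
        by_cases hf : Int.fract ((σ : ℝ) * ρ) = 0
        · rw [if_pos (e2.2 hf)]
          rw [if_pos hf] at h2
          linarith
        · rw [if_neg fun h => hf (e2.1 h)]
          rw [if_neg hf] at h2
          linarith)
    refine ⟨i, k, ?_, ?_, ?_⟩
    · rintro rfl
      have : i ∈ C.erase i := by rw [hk]; exact Finset.mem_singleton_self i
      exact Finset.notMem_erase i C this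
    · intro x
      rw [← Finset.insert_erase hi, hk]
      simp
    · rw [hqσ, hqk]
      ring
  · -- an odd number of elements
    left
    obtain ⟨c, hc⟩ := hpar
    have hfun : ∀ u : ℝ, (∀ i ∈ C, ∀ n : ℤ, (q i : ℝ) * u ≠ n) →
        gsum C q u = saw ((σ : ℝ) * u) := by
      intro u hu
      obtain ⟨n, hn⟩ := gsum_mod C q u hu
      have h1 := abs_lt.1 (hlt u hu)
      rw [← hσr, hc] at hn
      push_cast at hn
      rw [saw_of_mem_int (n + c) (by push_cast; linarith) (by push_cast; linarith)]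
      push_cast
      linarith
    obtain ⟨i, hi, -⟩ := single_of_jump C q hq hp σ hσ0 fun ρ => by
      rw [jump_eq_of_gsum_eq C q hq (Finset.univ : Finset Unit) (fun _ => σ) (fun _ _ => hσ0)
        (by simp [hσr]) (by
          intro u hu _
          rw [hfun u hu]
          simp [gsum]) ρ]
      simp [jump]
    exact ⟨i, hi⟩

end Pool.Agent.LevelOne
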