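import Mathlib

/-!
# Level-one tuples of residues: basic notions
-/

set_option autoImplicit false

namespace Pool.Agent.LevelOne

/-- The normalised sawtooth function. -/
noncomputable def saw (x : ℝ) : ℝ := if Int.fract x = 0 then 0 else Int.fract x - 1 / 2

/-- The pairing of an integer vector with a real vector. -/
noncomputable def dot {κ : Type*} [Fintype κ] (w : κ → ℤ) (θ : κ → ℝ) : ℝ := ∑ j, (w j : ℝ) * θ j

/-- The sum of the sawtooth functions of the characters `v i` has absolute value `1/2` wherever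
no character is integral. -/
def Stable {ι κ : Type*} [Fintype ι] [Fintype κ] (v : ι → (κ → ℤ)) : Prop :=
  ∀ θ : κ → ℝ, (∀ i, ∀ n : ℤ, dot (v i) θ ≠ n) → |∑ i, saw (dot (v i) θ)| = 1 / 2

/-- The one-dimensional sum of sawtooth functions. -/
noncomputable def gsum {ι : Type*} (C : Finset ι) (q : ι → ℤ) (u : ℝ) : ℝ :=
  ∑ i ∈ C, saw ((q i : ℝ) * u)

/-- Minus the jump of `gsum C q` at `ρ`: the sum of the signs of the `q i` with `q i * ρ`
integral. -/
noncomputable def jump {ι : Type*} (C : Finset ι) (q : ι → ℤ) (ρ : ℝ) : ℤ :=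
  ∑ i ∈ C, if Int.fract ((q i : ℝ) * ρ) = 0 then Int.sign (q i) else 0

end Pool.Agent.LevelOne
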