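import Pool.Agent.Lib.MP_386e47_h75.Ultra

/-!
# Multisets: removing cancelling pairs, and the converse
-/

set_option autoImplicit false

namespace Pool.Agent.LevelOne

lemma exists_fam {α : Type*} (s : Multiset α) (r : ℕ) (h : Multiset.card s = r) :
    ∃ a : Fin r → α, (Finset.univ.val : Multiset (Fin r)).map a = s := by
  subst h
  induction s using Quotient.inductionOn with
  | _ l =>
    refine ⟨fun i => l.get i, ?_⟩
    have := Fin.univ_val_map (fun i : Fin l.length => l.get i)
    rw [List.ofFn_get] at this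
    exact this

lemma val_add_val_neg {m : ℕ} [NeZero m] (x : ZMod m) (hx : x ≠ 0) : x.val + (-x).val = m := by
  have : NeZero x := ⟨hx⟩
  rw [ZMod.val_neg_of_ne_zero]
  have := ZMod.val_lt x
  omega

lemma unit_mul_ne {m : ℕ} (t : (ZMod m)ˣ) {x : ZMod m} (hx : x ≠ 0) : (t : ZMod m) * x ≠ 0 := by
  intro h
  exact hx ((t.isUnit.mul_right_eq_zero).1 h)

/-- Sum of the representatives of `t * x`, `x ∈ s`. -/
def S {m : ℕ} (t : ZMod m) (s : Multiset (ZMod m)) : ℕ := (s.map fun x => (t * x).val).sum

lemma S_add {m : ℕ} (t : ZMod m) (s s' : Multiset (ZMod m)) : S t (s + s') = S t s + S t s' := by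
  simp [S]

lemma S_cons {m : ℕ} (t : ZMod m) (x : ZMod m) (s : Multiset (ZMod m)) :
    S t (x ::ₘ s) = (t * x).val + S t s := by
  simp [S]

lemma S_pairs {m : ℕ} [NeZero m] (t : (ZMod m)ˣ) (u : Multiset (ZMod m)) (hu : (0 : ZMod m) ∉ u) :
    S (t : ZMod m) (u + u.map Neg.neg) = Multiset.card u * m := by
  induction u using Multiset.induction_on with
  | empty => simp [S]
  | cons x u ih =>
    have h1 : x ≠ 0 := fun h => hu (by rw [h]; exact Multiset.mem_cons_self _ _)
    have h2 : (0 : ZMod m) ∉ u := fun h => hu (Multiset.mem_cons_of_mem h)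
    have h3 := ih h2
    rw [S_add] at h3
    rw [S_add, Multiset.map_cons, S_cons, S_cons, Multiset.card_cons]
    have h4 := val_add_val_neg _ (unit_mul_ne t h1)
    rw [← mul_neg] at h4
    linarith

lemma pair_or {m : ℕ} (s : Multiset (ZMod m)) :
    (∃ x s₁, s = x ::ₘ (-x) ::ₘ s₁) ∨
      ∀ (r : ℕ) (a : Fin r → ZMod m), (Finset.univ.val : Multiset (Fin r)).map a = s →
        ∀ i j, i ≠ j → a i + a j ≠ 0 := by
  classical
  by_cases h : ∃ x s₁, s = x ::ₘ (-x) ::ₘ s₁
  · exact Or.inl h
  · right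
    intro r a ha i j hij h0
    apply h
    have h1 : i ∈ (Finset.univ.val : Multiset (Fin r)) := Finset.mem_univ i
    have h2 : j ∈ (Finset.univ.val : Multiset (Fin r)).erase i :=
      (Multiset.mem_erase_of_ne (Ne.symm hij)).2 (Finset.mem_univ j)
    refine ⟨a i, (((Finset.univ.val : Multiset (Fin r)).erase i).erase j).map a, ?_⟩
    have h3 : -a i = a j := by linear_combination (-1 : ZMod m) * h0
    rw [← ha, h3, ← Multiset.map_cons, Multiset.cons_erase h2, ← Multiset.map_cons,
      Multiset.cons_erase h1]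

/-- A stable multiset of integers. -/
def IsStable (q : Multiset ℤ) : Prop :=
  (0 : ℤ) ∉ q ∧ q.sum = 0 ∧ ∃ j : ℕ, Multiset.card q = 2 * j + 1 ∧
    ∀ c : ℝ, (∀ n ∈ q, ∀ z : ℤ, c * n ≠ z) →
      (q.map fun n : ℤ => Int.fract (c * n)).sum = j ∨
      (q.map fun n : ℤ => Int.fract (c * n)).sum = j + 1

/-- The three families. -/
def Reduced (m H : ℕ) (s : Multiset (ZMod m)) : Prop :=
  Multiset.card s = 3 ∨ (∃ x y : ZMod m, s = {2 * x, -x, 2 * y, -y, -(x + y)}) ∨
    ∃ (q : Multiset ℤ) (t : ZMod m), IsStable q ∧ (∀ n ∈ q, |n| ≤ H) ∧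
      s = q.map fun n : ℤ => (n : ZMod m) * t

lemma Reduced.mono {m H H' : ℕ} (h : H ≤ H') {s : Multiset (ZMod m)} (hs : Reduced m H s) :
    Reduced m H' s := by
  rcases hs with h1 | h1 | ⟨q, t, h1, h2, h3⟩
  · exact Or.inl h1
  · exact Or.inr (Or.inl h1)
  · exact Or.inr (Or.inr ⟨q, t, h1, fun n hn => (h2 n hn).trans (by exact_mod_cast h), h3⟩)

lemma fam_reduced {k m H r : ℕ} (hr : r = 2 * k + 1) {a : Fin r → ZMod m}
    (hsum : ∑ i, a i = 0) (h : FamOK k H m a) :
    Reduced m H ((Finset.univ.val : Multiset (Fin r)).map a) := by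
  classical
  rcases h with h | ⟨h5, i₁, j₁, i₂, j₂, l, hx, h1, h2⟩ | ⟨q, hq, hH, t, ht⟩
  · left
    rw [Multiset.card_map]
    simpa using h
  · right
    left
    have hle : (Finset.univ.val : Multiset (Fin r)) = {i₁, j₁, i₂, j₂, l} := by
      apply Multiset.eq_of_le_of_card_le
      · rw [Multiset.le_iff_subset Finset.univ.nodup]
        intro x _
        rcases hx x with h | h | h | h | h <;> simp [h]
      · simp [h5]
    have hs : a i₁ + (a j₁ + (a i₂ + (a j₂ + a l))) = 0 := by
      rw [← hsum]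
      change _ = ((Finset.univ.val : Multiset (Fin r)).map a).sum
      rw [hle]
      simp
    refine ⟨-a j₁, -a j₂, ?_⟩
    rw [hle]
    have e1 : a i₁ = 2 * -a j₁ := by linear_combination h1
    have e2 : a i₂ = 2 * -a j₂ := by linear_combination h2
    have e3 : a l = -(-a j₁ + -a j₂) := by linear_combination hs - h1 - h2
    simp only [Multiset.insert_eq_cons, Multiset.map_cons, Multiset.map_singleton, neg_neg]
    rw [← e1, ← e2, ← e3]
  · right
    right
    refine ⟨(Finset.univ.val : Multiset (Fin r)).map q, t, ⟨?_, hq.2.1, k, ?_, ?_⟩, ?_, ?_⟩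
    · intro h0
      obtain ⟨i, -, hi⟩ := Multiset.mem_map.1 h0
      exact hq.1 i hi
    · rw [Multiset.card_map]
      simpa using hr
    · intro c hc
      rw [Multiset.map_map]
      exact hq.2.2 c fun i n => hc (q i) (Multiset.mem_map_of_mem q (Finset.mem_univ i)) n
    · intro n hn
      obtain ⟨i, -, rfl⟩ := Multiset.mem_map.1 hn
      exact hH i
    · rw [Multiset.map_map]
      exact Multiset.map_congr rfl fun i _ => ht i

theorem classify (k : ℕ) : ∃ P H : ℕ, ∀ m : ℕ, (∀ p : ℕ, p.Prime → p ∣ m → P < p) →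
    ∀ s : Multiset (ZMod m), Multiset.card s = 2 * k + 1 → (0 : ZMod m) ∉ s → s.sum = 0 →
      (∀ t : (ZMod m)ˣ, S (t : ZMod m) s = k * m ∨ S (t : ZMod m) s = (k + 1) * m) →
      ∃ s' u : Multiset (ZMod m), s = s' + (u + u.map Neg.neg) ∧ Reduced m H s' := by
  induction k with
  | zero =>
    refine ⟨0, 0, fun m _ s h1 h2 h3 _ => ?_⟩
    obtain ⟨x, rfl⟩ := Multiset.card_eq_one.1 (show Multiset.card s = 1 by simpa using h1)
    rw [Multiset.sum_singleton] at h3
    exact absurd (by rw [h3]; exact Multiset.mem_singleton_self _) h2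
  | succ k ih =>
    obtain ⟨P₁, H₁, ih⟩ := ih
    obtain ⟨P₂, H₂, hpf⟩ := pairfree (k + 1) (2 * (k + 1) + 1) rfl
    refine ⟨max 2 (max P₁ P₂), max H₁ H₂, fun m hm s h1 h2 h3 h4 => ?_⟩
    have hm0 : m ≠ 0 := by
      rintro rfl
      have := hm 2 Nat.prime_two (dvd_zero _)
      have := le_max_left 2 (max P₁ P₂)
      omega
    have : NeZero m := ⟨hm0⟩
    have hm1 : ∀ p : ℕ, p.Prime → p ∣ m → P₁ < p := fun p hp hpm =>
      lt_of_le_of_lt ((le_max_left P₁ P₂).trans (le_max_right _ _)) (hm p hp hpm)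
    have hm2 : ∀ p : ℕ, p.Prime → p ∣ m → P₂ < p := fun p hp hpm =>
      lt_of_le_of_lt ((le_max_right P₁ P₂).trans (le_max_right _ _)) (hm p hp hpm)
    rcases pair_or s with ⟨x, s₁, rfl⟩ | hpair
    · have hx : x ≠ 0 := fun h => h2 (by rw [h]; exact Multiset.mem_cons_self _ _)
      obtain ⟨s', u, hs, hred⟩ := ih m hm1 s₁ (by
          simp only [Multiset.card_cons] at h1
          omega)
        (fun h => h2 (Multiset.mem_cons_of_mem (Multiset.mem_cons_of_mem h)))
        (by simpa using h3)
        (fun t => by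
          have e := h4 t
          rw [S_cons, S_cons] at e
          have e2 := val_add_val_neg _ (unit_mul_ne t hx)
          rw [← mul_neg] at e2
          rcases e with e | e
          · left
            have : (k + 1) * m = k * m + m := by ring
            omega
          · right
            have : (k + 1 + 1) * m = (k + 1) * m + m := by ring
            omega)
      refine ⟨s', x ::ₘ u, ?_, hred.mono (le_max_left _ _)⟩
      rw [hs, Multiset.map_cons]
      rw [← Multiset.singleton_add x, ← Multiset.singleton_add (-x), ← Multiset.singleton_add x u,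
        ← Multiset.singleton_add (-x) (u.map Neg.neg)]
      abel
    · obtain ⟨a, ha⟩ := exists_fam s _ h1
      have hne := hpair _ a ha
      have hlev : LevelFam (k + 1) m a := by
        refine ⟨fun i h0 => h2 ?_, ?_, fun t => ?_⟩
        · rw [← ha, ← h0]
          exact Multiset.mem_map_of_mem a (Finset.mem_univ i)
        · rw [← h3, ← ha]
          rfl
        · have e := h4 t
          rw [← ha] at e
          unfold S at e
          rw [Multiset.map_map] at e
          exact e
      refine ⟨s, 0, by simp, ?_⟩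
      rw [← ha]
      exact (fam_reduced rfl hlev.2.1 (hpf m hm2 a hlev hne)).mono (le_max_right _ _)

/-! ## The converse -/

lemma val_add_cases {m : ℕ} [NeZero m] (z w : ZMod m) :
    (z + w).val = z.val + w.val ∨ (z + w).val + m = z.val + w.val := by
  by_cases h : z.val + w.val < m
  · left
    exact ZMod.val_add_of_lt h
  · right
    push Not at h
    have := ZMod.val_add_val_of_le h
    omega

lemma val_pos' {m : ℕ} [NeZero m] {z : ZMod m} (h : z ≠ 0) : 0 < z.val := by
  rcases Nat.eq_zero_or_pos z.val with h0 | h0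
  · exact absurd ((ZMod.val_eq_zero z).1 h0) h
  · exact h0

lemma fract_eq {m : ℕ} [NeZero m] (n : ℤ) (z : ZMod m) :
    Int.fract (((z.val : ℕ) : ℝ) / m * n) = ((((n : ZMod m) * z).val : ℕ) : ℝ) / m := by
  have hm : (0 : ℝ) < m := by
    have := NeZero.ne m
    positivity
  rw [Int.fract_eq_iff]
  refine ⟨by positivity, ?_, ?_⟩
  · rw [div_lt_one hm]
    exact_mod_cast ZMod.val_lt _
  · have h1 : ((z.val * n - ((n : ZMod m) * z).val : ℤ) : ZMod m) = 0 := by
      push_cast
      rw [ZMod.natCast_zmod_val, ZMod.natCast_zmod_val]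
      ring
    rw [ZMod.intCast_zmod_eq_zero_iff_dvd] at h1
    obtain ⟨w, hw⟩ := h1
    refine ⟨w, ?_⟩
    have h2 : ((z.val : ℕ) : ℝ) * n - ((((n : ZMod m) * z).val : ℕ) : ℝ) = m * w := by
      exact_mod_cast hw
    field_simp
    linarith

lemma level_of_reduced {m H : ℕ} [NeZero m] (s : Multiset (ZMod m)) (h0 : (0 : ZMod m) ∉ s)
    (hs : s.sum = 0) (hred : Reduced m H s) :
    ∃ j : ℕ, Multiset.card s = 2 * j + 1 ∧ ∀ t : (ZMod m)ˣ,
      S (t : ZMod m) s = j * m ∨ S (t : ZMod m) s = (j + 1) * m := by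
  rcases hred with h | ⟨x, y, rfl⟩ | ⟨q, t₀, ⟨hq0, hqs, j, hj, hq⟩, -, rfl⟩
  · obtain ⟨x, y, z, rfl⟩ := Multiset.card_eq_three.1 h
    refine ⟨1, by simp, fun t => ?_⟩
    have hz : z = -(x + y) := by
      have : x + (y + z) = 0 := by simpa using hs
      linear_combination this
    have hxy : x + y ≠ 0 := by
      intro h
      apply h0
      rw [hz, h]
      simp
    have e : S (t : ZMod m) {x, y, z} = ((t : ZMod m) * x).val + (((t : ZMod m) * y).val +
        ((t : ZMod m) * z).val) := by
      simp [S]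
    have e1 := val_add_cases ((t : ZMod m) * x) ((t : ZMod m) * y)
    rw [← mul_add] at e1
    have e2 := val_add_val_neg _ (unit_mul_ne t hxy)
    rw [← mul_neg, ← hz] at e2
    rw [e]
    omega
  · refine ⟨2, by simp, fun t => ?_⟩
    have hx2 : 2 * x ≠ 0 := fun h => h0 (by simp [h])
    have hy2 : 2 * y ≠ 0 := fun h => h0 (by simp [h])
    have hx : x ≠ 0 := by
      rintro rfl
      simp at hx2
    have hy : y ≠ 0 := by
      rintro rfl
      simp at hy2
    have hxy : x + y ≠ 0 := by
      intro h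
      apply h0
      simp only [Multiset.insert_eq_cons, Multiset.mem_cons, Multiset.mem_singleton]
      right; right; right; right
      rw [h, neg_zero]
    have e : S (t : ZMod m) {2 * x, -x, 2 * y, -y, -(x + y)} = ((t : ZMod m) * (2 * x)).val +
        (((t : ZMod m) * -x).val + (((t : ZMod m) * (2 * y)).val + (((t : ZMod m) * -y).val +
          ((t : ZMod m) * -(x + y)).val))) := by
      simp only [S, Multiset.insert_eq_cons, Multiset.map_cons, Multiset.map_singleton,
        Multiset.sum_cons, Multiset.sum_singleton]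
    have e1 := val_add_cases ((t : ZMod m) * x) ((t : ZMod m) * y)
    rw [← mul_add] at e1
    have e2 := val_add_val_neg _ (unit_mul_ne t hxy)
    rw [← mul_neg] at e2
    have e3 := val_add_val_neg _ (unit_mul_ne t hx)
    rw [← mul_neg] at e3
    have e4 := val_add_val_neg _ (unit_mul_ne t hy)
    rw [← mul_neg] at e4
    have e5 := val_add_cases ((t : ZMod m) * x) ((t : ZMod m) * x)
    rw [← mul_add, ← two_mul] at e5
    have e6 := val_add_cases ((t : ZMod m) * y) ((t : ZMod m) * y)
    rw [← mul_add, ← two_mul] at e6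
    have b1 := ZMod.val_lt ((t : ZMod m) * (x + y))
    have b2 := ZMod.val_lt ((t : ZMod m) * (2 * x))
    have b3 := ZMod.val_lt ((t : ZMod m) * (2 * y))
    have b4 := val_pos' (unit_mul_ne t hxy)
    have b5 := val_pos' (unit_mul_ne t hx2)
    have b6 := val_pos' (unit_mul_ne t hy2)
    rw [e]
    omega
  · refine ⟨j, by rw [Multiset.card_map, hj], fun t => ?_⟩
    have hm : (0 : ℝ) < m := by
      have := NeZero.ne m
      positivity
    have hne : ∀ n ∈ q, ((n : ZMod m) * t₀) ≠ 0 := by
      intro n hn h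
      apply h0
      exact Multiset.mem_map.2 ⟨n, hn, h⟩
    have hval : ∀ n : ℤ, ((t : ZMod m) * ((n : ZMod m) * t₀)) = (n : ZMod m) * ((t : ZMod m) * t₀) :=
      fun n => by ring
    have hsum : ((S (t : ZMod m) (q.map fun n : ℤ => (n : ZMod m) * t₀) : ℕ) : ℝ) / m =
        (q.map fun n : ℤ => Int.fract ((((t : ZMod m) * t₀).val : ℝ) / m * n)).sum := by
      unfold S
      rw [Multiset.map_map]
      clear hj hq hqs hq0 hs h0 hne
      induction q using Multiset.induction_on with
      | empty => simp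
      | cons n q ih =>
        rw [Multiset.map_cons, Multiset.map_cons, Multiset.sum_cons, Multiset.sum_cons, ← ih,
          fract_eq]
        push_cast
        rw [add_div]
        simp only [Function.comp_apply]
        rw [hval]
    have hc : ∀ n ∈ q, ∀ z : ℤ, (((t : ZMod m) * t₀).val : ℝ) / m * n ≠ z := by
      intro n hn z hz
      have h1 := fract_eq n ((t : ZMod m) * t₀)
      rw [hz, Int.fract_intCast] at h1
      have h2 : (((n : ZMod m) * ((t : ZMod m) * t₀)).val : ℝ) = 0 := by
        rcases div_eq_zero_iff.1 h1.symm with h | h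
        · exact h
        · exact absurd h hm.ne'
      have h3 : ((n : ZMod m) * ((t : ZMod m) * t₀)).val = 0 := by exact_mod_cast h2
      have h4 := (ZMod.val_eq_zero _).1 h3
      rw [← hval] at h4
      exact unit_mul_ne t (hne n hn) h4
    rcases hq _ hc with h | h
    · left
      rw [h] at hsum
      rw [div_eq_iff hm.ne'] at hsum
      exact_mod_cast hsum
    · right
      rw [h] at hsum
      rw [div_eq_iff hm.ne'] at hsum
      exact_mod_cast hsum

theorem classify_iff (k : ℕ) : ∃ P H : ℕ, ∀ m : ℕ, (∀ p : ℕ, p.Prime → p ∣ m → P < p) →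
    ∀ s : Multiset (ZMod m), Multiset.card s = 2 * k + 1 → (0 : ZMod m) ∉ s → s.sum = 0 →
      ((∀ t : (ZMod m)ˣ, S (t : ZMod m) s = k * m ∨ S (t : ZMod m) s = (k + 1) * m) ↔
      ∃ s' u : Multiset (ZMod m), s = s' + (u + u.map Neg.neg) ∧ Reduced m H s') := by
  obtain ⟨P, H, h⟩ := classify k
  refine ⟨max 2 P, H, fun m hm s h1 h2 h3 => ⟨fun h4 => h m (fun p hp hpm =>
    lt_of_le_of_lt (le_max_right _ _) (hm p hp hpm)) s h1 h2 h3 h4, ?_⟩⟩
  have hm0 : m ≠ 0 := by
    rintro rfl
    have := hm 2 Nat.prime_two (dvd_zero _)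
    have := le_max_left 2 P
    omega
  have : NeZero m := ⟨hm0⟩
  rintro ⟨s', u, rfl, hred⟩ t
  have hu0 : (0 : ZMod m) ∉ u := fun h => h2 (by
    rw [Multiset.mem_add, Multiset.mem_add]
    exact Or.inr (Or.inl h))
  have hs0 : (0 : ZMod m) ∉ s' := fun h => h2 (by
    rw [Multiset.mem_add]
    exact Or.inl h)
  have hsneg : (u + u.map Neg.neg).sum = 0 := by
    rw [Multiset.sum_add]
    have : (u.map Neg.neg).sum = -u.sum := by
      rw [Multiset.sum_map_neg']
    rw [this, add_neg_cancel]
  have hs : s'.sum = 0 := by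
    rw [Multiset.sum_add, hsneg, add_zero] at h3
    exact h3
  obtain ⟨j, hj, hlev⟩ := level_of_reduced s' hs0 hs hred
  rw [S_add, S_pairs t u hu0]
  have hcard : k = j + Multiset.card u := by
    rw [Multiset.card_add, Multiset.card_add, Multiset.card_map, hj] at h1
    omega
  rcases hlev t with e | e
  · left
    rw [e, hcard]
    ring
  · right
    rw [e, hcard]
    ring

end Pool.Agent.LevelOne
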