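import Pool.Agent.Lib.MP_386e47_h75.Avg

/-!
# Equidistribution of the multiples of a tuple of residues
-/

set_option autoImplicit false

namespace Pool.Agent.LevelOne

open ZMod

lemma norm_half_le (y δ : ℝ) (hδ : 0 < δ) (hδ2 : δ ≤ 1 / 2) (h : ∀ n : ℤ, δ ≤ |y - n|) :
    ‖(1 + Complex.exp (2 * Real.pi * Complex.I * y)) / 2‖ ^ 2 ≤
      (1 + Real.cos (2 * Real.pi * δ)) / 2 := by
  have h1 : ‖(1 + Complex.exp (2 * Real.pi * Complex.I * y)) / 2‖ ^ 2 =
      (1 + Real.cos (2 * Real.pi * y)) / 2 := by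
    have e1 : Complex.exp (2 * Real.pi * Complex.I * y) =
        ⟨Real.cos (2 * Real.pi * y), Real.sin (2 * Real.pi * y)⟩ := by
      have : (2 * Real.pi * Complex.I * y : ℂ) = ((2 * Real.pi * y : ℝ) : ℂ) * Complex.I := by
        push_cast
        ring
      rw [this]
      apply Complex.ext
      · exact Complex.exp_ofReal_mul_I_re _
      · exact Complex.exp_ofReal_mul_I_im _
    rw [e1, norm_div, div_pow, Complex.sq_norm, Complex.normSq_apply]
    simp only [Complex.add_re, Complex.one_re, Complex.add_im, Complex.one_im, zero_add]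
    have := Real.sin_sq_add_cos_sq (2 * Real.pi * y)
    rw [show ‖(2 : ℂ)‖ = 2 by simp]
    field_simp
    nlinarith
  rw [h1]
  have h2 : Real.cos (2 * Real.pi * y) ≤ Real.cos (2 * Real.pi * δ) := by
    set n := round y with hn
    have h3 : |y - n| ≤ 1 / 2 := abs_sub_round y
    have h4 : Real.cos (2 * Real.pi * y) = Real.cos (2 * Real.pi * |y - n|) := by
      rw [← Real.cos_sub_int_mul_two_pi (2 * Real.pi * y) n]
      rw [← Real.cos_abs, show 2 * Real.pi * y - n * (2 * Real.pi) = 2 * Real.pi * (y - n) by ring,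
        abs_mul, abs_of_pos Real.two_pi_pos]
    rw [h4]
    apply Real.cos_le_cos_of_nonneg_of_le_pi
    · have := Real.pi_pos
      positivity
    · nlinarith [Real.pi_pos]
    · have := h n
      nlinarith [Real.pi_pos]
  linarith

/-- If `x` satisfies all the small integral relations of `a` modulo one, and `m` has only large
prime factors, then some unit multiple of `a / m` is close to `x` modulo one. -/
theorem exists_unit_near (ι : Type) [Fintype ι] (δ : ℝ) (hδ : 0 < δ) :
    ∃ N P : ℕ, ∀ (m : ℕ) [NeZero m], (∀ p, p.Prime → p ∣ m → P < p) →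
      ∀ (a : ι → ZMod m) (x : ι → ℝ),
        (∀ μ : ι → ℤ, (∀ i, |μ i| ≤ N) → ∑ i, (μ i : ZMod m) * a i = 0 →
          ∃ n : ℤ, ∑ i, (μ i : ℝ) * x i = n) →
        ∃ t : (ZMod m)ˣ, ∀ i, ∃ n : ℤ,
          |(((t : ZMod m) * a i).val : ℝ) / m - x i - n| < δ := by
  classical
  -- we may assume that `δ` is small
  wlog hδ2 : δ ≤ 1 / 2 generalizing δ
  · obtain ⟨N, P, h⟩ := this (1 / 2) (by norm_num) le_rfl
    refine ⟨N, P, fun m _ hm a x hx => ?_⟩
    obtain ⟨t, ht⟩ := h m hm a x hx
    refine ⟨t, fun i => ?_⟩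
    obtain ⟨n, hn⟩ := ht i
    exact ⟨n, by linarith⟩
  set q : ℝ := (1 + Real.cos (2 * Real.pi * δ)) / 2 with hq
  have hq0 : 0 ≤ q := by
    have := Real.neg_one_le_cos (2 * Real.pi * δ)
    rw [hq]
    linarith
  have hq1 : q < 1 := by
    have h1 : Real.cos (2 * Real.pi * δ) < Real.cos 0 := by
      apply Real.cos_lt_cos_of_nonneg_of_le_pi le_rfl
      · nlinarith [Real.pi_pos]
      · have := Real.pi_pos
        positivity
    rw [Real.cos_zero] at h1
    rw [hq]
    linarith
  set r := Fintype.card ι with hr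
  obtain ⟨N, hN⟩ : ∃ N : ℕ, 2 * ((N : ℝ) + 1) ^ r * q ^ N < 1 := by
    have h1 := tendsto_pow_const_mul_const_pow_of_abs_lt_one r
      (show |q| < 1 by rwa [abs_of_nonneg hq0])
    have h2 : Filter.Tendsto (fun n : ℕ => 2 * (2 : ℝ) ^ r * ((n : ℝ) ^ r * q ^ n))
        Filter.atTop (nhds 0) := by
      have := h1.const_mul (2 * (2 : ℝ) ^ r)
      rwa [mul_zero] at this
    have h3 := (h2.eventually_lt_const one_pos).and (Filter.eventually_ge_atTop 1)
    obtain ⟨N, hN1, hN2⟩ := h3.exists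
    refine ⟨N, lt_of_le_of_lt ?_ hN1⟩
    have hN3 : (1 : ℝ) ≤ N := by exact_mod_cast hN2
    have h4 : ((N : ℝ) + 1) ^ r ≤ (2 : ℝ) ^ r * (N : ℝ) ^ r := by
      rw [← mul_pow]
      exact pow_le_pow_left₀ (by positivity) (by linarith) r
    have h5 : 0 ≤ q ^ N := pow_nonneg hq0 N
    calc 2 * ((N : ℝ) + 1) ^ r * q ^ N ≤ 2 * ((2 : ℝ) ^ r * (N : ℝ) ^ r) * q ^ N := by gcongr
      _ = 2 * (2 : ℝ) ^ r * ((N : ℝ) ^ r * q ^ N) := by ring
  set P : ℕ := 2 * (N + 1) ^ r with hP
  refine ⟨N, P, fun m _ hm a x hx => ?_⟩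
  by_contra hcon
  push Not at hcon
  have hPpos : (0 : ℝ) < P := by
    rw [hP]
    positivity
  -- notation
  let c : ℕ → ℝ := fun j => (N.choose j : ℝ) / 2 ^ N
  have hc0 : ∀ j, 0 ≤ c j := fun j => by positivity
  have hcsum : ∑ j ∈ Finset.range (N + 1), c j = 1 := by
    simp only [c]
    rw [← Finset.sum_div]
    have : ∑ j ∈ Finset.range (N + 1), (N.choose j : ℝ) = 2 ^ N := by
      exact_mod_cast Nat.sum_range_choose N
    rw [this, div_self (by positivity)]
  have hcsq : 1 / ((N : ℝ) + 1) ≤ ∑ j ∈ Finset.range (N + 1), c j * c j := by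
    have h2 := Finset.sum_mul_sq_le_sq_mul_sq (Finset.range (N + 1)) c (fun _ => (1 : ℝ))
    simp only [mul_one, one_pow, Finset.sum_const, Finset.card_range, nsmul_eq_mul] at h2
    rw [hcsum] at h2
    push_cast at h2
    rw [div_le_iff₀ (by positivity)]
    have h3 : ∑ j ∈ Finset.range (N + 1), c j ^ 2 = ∑ j ∈ Finset.range (N + 1), c j * c j :=
      Finset.sum_congr rfl fun j _ => by ring
    rw [h3] at h2
    linarith
  have hbin : ∀ z : ℂ, ((1 + z) / 2) ^ N = ∑ j ∈ Finset.range (N + 1), (c j : ℂ) * z ^ j := by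
    intro z
    rw [div_pow, add_comm, add_pow, Finset.sum_div]
    refine Finset.sum_congr rfl fun j _ => ?_
    simp only [c]
    push_cast
    rw [one_pow]
    ring
  let ex : ℝ → ℂ := fun y => Complex.exp (2 * Real.pi * Complex.I * y)
  have hexadd : ∀ y z, ex (y + z) = ex y * ex z := by
    intro y z
    simp only [ex]
    rw [← Complex.exp_add]
    congr 1
    push_cast
    ring
  have hexint : ∀ n : ℤ, ex n = 1 := by
    intro n
    simp only [ex]
    rw [Complex.exp_eq_one_iff]
    exact ⟨n, by push_cast; ring⟩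
  have hexnorm : ∀ y, ‖ex y‖ = 1 := by
    intro y
    simp only [ex]
    have : (2 * Real.pi * Complex.I * y : ℂ) = ((2 * Real.pi * y : ℝ) : ℂ) * Complex.I := by
      push_cast
      ring
    rw [this, Complex.norm_exp_ofReal_mul_I]
  have hexmul : ∀ (k : ℕ) y, ex y ^ k = ex (k * y) := by
    intro k y
    simp only [ex]
    rw [← Complex.exp_nat_mul]
    congr 1
    push_cast
    ring
  -- the value of the standard character
  have hstd : ∀ b : ZMod m, stdAddChar b = ex ((b.val : ℝ) / m) := by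
    intro b
    have h1 : ((b.val : ℤ) : ZMod m) = b := by simp
    conv_lhs => rw [← h1]
    rw [ZMod.stdAddChar_coe]
    simp only [ex]
    congr 1
    push_cast
    ring
  let z : (ZMod m)ˣ → ι → ℂ := fun t i => stdAddChar ((t : ZMod m) * a i) * ex (-x i)
  let w : (ZMod m)ˣ → ι → ℂ := fun t i => stdAddChar (-((t : ZMod m) * a i)) * ex (x i)
  have hz : ∀ t i, z t i = ex ((((t : ZMod m) * a i).val : ℝ) / m - x i) := by
    intro t i
    simp only [z]
    rw [hstd, ← hexadd]
    congr 1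
  have hzw : ∀ t i, w t i = (starRingEnd ℂ) (z t i) := by
    intro t i
    simp only [z, w]
    rw [map_mul]
    congr 1
    · rw [AddChar.map_neg_eq_conj]
    · simp only [ex]
      rw [← Complex.exp_conj]
      congr 1
      have h2 : (starRingEnd ℂ) 2 = 2 := map_ofNat (starRingEnd ℂ) 2
      simp [h2]
  let W : (ZMod m)ˣ → ℂ := fun t => ∏ i, (((1 + z t i) / 2) ^ N * ((1 + w t i) / 2) ^ N)
  have hWnorm : ∀ t, ‖W t‖ ≤ q ^ N := by
    intro t
    have h1 : ‖W t‖ = ∏ i, (‖(1 + z t i) / 2‖ ^ 2) ^ N := by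
      simp only [W]
      rw [norm_prod]
      refine Finset.prod_congr rfl fun i _ => ?_
      have h2 : ‖(1 + w t i) / 2‖ = ‖(1 + z t i) / 2‖ := by
        rw [hzw, ← Complex.norm_conj ((1 + z t i) / 2)]
        congr 1
        have h2 : (starRingEnd ℂ) 2 = 2 := map_ofNat (starRingEnd ℂ) 2
        simp [h2]
      rw [norm_mul, norm_pow, norm_pow, h2]
      ring
    rw [h1]
    have hle1 : ∀ i, ‖(1 + z t i) / 2‖ ^ 2 ≤ 1 := by
      intro i
      have h3 : ‖(1 + z t i) / 2‖ ≤ 1 := by
        rw [norm_div, show ‖(2 : ℂ)‖ = 2 by simp, div_le_one (by norm_num)]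
        refine (norm_add_le _ _).trans ?_
        rw [hz, hexnorm, norm_one]
        norm_num
      exact pow_le_one₀ (norm_nonneg _) h3
    obtain ⟨i, hi⟩ := hcon t
    have h4 : ‖(1 + z t i) / 2‖ ^ 2 ≤ q := by
      rw [hz]
      exact norm_half_le _ δ hδ hδ2 hi
    calc ∏ i, (‖(1 + z t i) / 2‖ ^ 2) ^ N
        = (‖(1 + z t i) / 2‖ ^ 2) ^ N * ∏ k ∈ Finset.univ.erase i, (‖(1 + z t k) / 2‖ ^ 2) ^ N :=
          (Finset.mul_prod_erase _ _ (Finset.mem_univ i)).symm
      _ ≤ q ^ N * 1 := by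
          refine mul_le_mul (pow_le_pow_left₀ (by positivity) h4 N)
            (Finset.prod_le_one (fun k _ => by positivity) fun k _ =>
              pow_le_one₀ (by positivity) (hle1 k)) (Finset.prod_nonneg fun k _ => by positivity)
            (pow_nonneg hq0 N)
      _ = q ^ N := mul_one _
  -- expansion
  let S : Finset (ℕ × ℕ) := Finset.range (N + 1) ×ˢ Finset.range (N + 1)
  let Cf : (ι → ℕ × ℕ) → ℝ := fun f => ∏ i, c (f i).1 * c (f i).2
  let μ : (ι → ℕ × ℕ) → ι → ℤ := fun f i => ((f i).1 : ℤ) - (f i).2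
  let bf : (ι → ℕ × ℕ) → ZMod m := fun f => ∑ i, (μ f i : ZMod m) * a i
  have hWexp : ∀ t, W t = ∑ f ∈ Fintype.piFinset fun _ : ι => S,
      (Cf f : ℂ) * (stdAddChar ((t : ZMod m) * bf f) * ex (-∑ i, (μ f i : ℝ) * x i)) := by
    intro t
    simp only [W]
    have h1 : ∀ i, ((1 + z t i) / 2) ^ N * ((1 + w t i) / 2) ^ N =
        ∑ p ∈ S, ((c p.1 : ℂ) * z t i ^ p.1) * ((c p.2 : ℂ) * w t i ^ p.2) := by
      intro i
      rw [hbin, hbin, Finset.sum_mul_sum, Finset.sum_product]
    rw [Finset.prod_congr rfl fun i _ => h1 i, Finset.prod_univ_sum]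
    refine Finset.sum_congr rfl fun f _ => ?_
    have h2 : ∀ i, ((c (f i).1 : ℂ) * z t i ^ (f i).1) * ((c (f i).2 : ℂ) * w t i ^ (f i).2) =
        ((c (f i).1 * c (f i).2 : ℝ) : ℂ) *
          (stdAddChar ((t : ZMod m) * ((μ f i : ZMod m) * a i)) *
            ex (-((μ f i : ℝ) * x i))) := by
      intro i
      simp only [z, w, μ]
      rw [mul_pow, mul_pow, ← AddChar.map_nsmul_eq_pow, ← AddChar.map_nsmul_eq_pow, hexmul, hexmul]
      have e1 : (t : ZMod m) * (((((f i).1 : ℤ) - (f i).2 : ℤ) : ZMod m) * a i) =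
          (f i).1 • ((t : ZMod m) * a i) + (f i).2 • (-((t : ZMod m) * a i)) := by
        rw [nsmul_eq_mul, nsmul_eq_mul]
        push_cast
        ring
      have e2 : -(((((f i).1 : ℤ) - (f i).2 : ℤ) : ℝ) * x i) =
          ((f i).1 : ℝ) * -x i + ((f i).2 : ℝ) * x i := by
        push_cast
        ring
      rw [e1, e2, AddChar.map_add_eq_mul, hexadd]
      push_cast
      ring
    rw [Finset.prod_congr rfl fun i _ => h2 i, Finset.prod_mul_distrib, Finset.prod_mul_distrib]
    congr 1
    · simp only [Cf]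
      push_cast
      rfl
    · congr 1
      · simp only [bf]
        rw [Finset.mul_sum]
        have : ∀ s : Finset ι, ∏ i ∈ s, stdAddChar ((t : ZMod m) * ((μ f i : ZMod m) * a i)) =
            stdAddChar (∑ i ∈ s, (t : ZMod m) * ((μ f i : ZMod m) * a i)) := by
          intro s
          induction s using Finset.induction_on with
          | empty => simp
          | insert i s hi ih =>
            rw [Finset.prod_insert hi, Finset.sum_insert hi, ih, AddChar.map_add_eq_mul]
        exact this _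
      · rw [← Finset.sum_neg_distrib]
        have : ∀ s : Finset ι, ∏ i ∈ s, ex (-((μ f i : ℝ) * x i)) =
            ex (∑ i ∈ s, -((μ f i : ℝ) * x i)) := by
          intro s
          induction s using Finset.induction_on with
          | empty => simpa using (hexint 0).symm
          | insert i s hi ih => rw [Finset.prod_insert hi, Finset.sum_insert hi, ih, hexadd]
        exact this _
  set G : ℝ := (Fintype.card (ZMod m)ˣ : ℝ) with hG
  have hGpos : 0 < G := by
    rw [hG]
    exact_mod_cast Fintype.card_pos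
  have hCf0 : ∀ f, 0 ≤ Cf f := fun f => Finset.prod_nonneg fun i _ => mul_nonneg (hc0 _) (hc0 _)
  have hterm : ∀ f ∈ Fintype.piFinset fun _ : ι => S,
      G * (Cf f * (if ∀ i, (f i).1 = (f i).2 then 1 else 0)) - G * Cf f / P ≤
        (∑ t : (ZMod m)ˣ, (Cf f : ℂ) *
          (stdAddChar ((t : ZMod m) * bf f) * ex (-∑ i, (μ f i : ℝ) * x i))).re := by
    intro f hf
    have hfS : ∀ i, (f i).1 ≤ N ∧ (f i).2 ≤ N := by
      intro i
      have := Fintype.mem_piFinset.1 hf i
      simp only [S, Finset.mem_product, Finset.mem_range] at this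
      omega
    have hre : (∑ t : (ZMod m)ˣ, (Cf f : ℂ) *
          (stdAddChar ((t : ZMod m) * bf f) * ex (-∑ i, (μ f i : ℝ) * x i))) =
        (Cf f : ℂ) * ((∑ t : (ZMod m)ˣ, stdAddChar ((t : ZMod m) * bf f)) *
          ex (-∑ i, (μ f i : ℝ) * x i)) := by
      rw [Finset.sum_mul, Finset.mul_sum]
    rw [hre]
    by_cases hb : bf f = 0
    · obtain ⟨n, hn⟩ := hx (μ f) (fun i => by
        simp only [μ]
        have := hfS i
        rw [abs_le]
        constructor <;> omega) hb
      have h1 : ex (-∑ i, (μ f i : ℝ) * x i) = 1 := by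
        rw [hn]
        have := hexint (-n)
        push_cast at this
        exact this
      rw [hb, h1]
      simp only [mul_zero, AddChar.map_zero_eq_one, Finset.sum_const, mul_one, nsmul_eq_mul]
      have h2 : ((Cf f : ℂ) * ((Finset.univ : Finset (ZMod m)ˣ).card : ℂ)).re = Cf f * G := by
        rw [Finset.card_univ, Complex.re_ofReal_mul, Complex.natCast_re]
      rw [h2]
      have h3 : (if ∀ i, (f i).1 = (f i).2 then (1 : ℝ) else 0) ≤ 1 := by
        split_ifs <;> norm_num
      have h4 : G * (Cf f * (if ∀ i, (f i).1 = (f i).2 then (1 : ℝ) else 0)) ≤ G * (Cf f * 1) :=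
        mul_le_mul_of_nonneg_left (mul_le_mul_of_nonneg_left h3 (hCf0 f)) hGpos.le
      have h5 : 0 ≤ G * Cf f / P := div_nonneg (mul_nonneg hGpos.le (hCf0 f)) hPpos.le
      linarith
    · have hnd : ¬ ∀ i, (f i).1 = (f i).2 := by
        intro h
        apply hb
        simp only [bf, μ]
        refine Finset.sum_eq_zero fun i _ => ?_
        rw [h i]
        simp
      rw [if_neg hnd, mul_zero, mul_zero, zero_sub]
      have h1 := avg_bound m P hm (bf f) hb
      have h2 : ‖(Cf f : ℂ) * ((∑ t : (ZMod m)ˣ, stdAddChar ((t : ZMod m) * bf f)) *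
          ex (-∑ i, (μ f i : ℝ) * x i))‖ ≤ G * Cf f / P := by
        rw [norm_mul, norm_mul, hexnorm, mul_one, Complex.norm_real, Real.norm_eq_abs,
          abs_of_nonneg (hCf0 f), le_div_iff₀ hPpos]
        have := mul_le_mul_of_nonneg_left h1 (hCf0 f)
        linarith
      have h3 := Complex.abs_re_le_norm ((Cf f : ℂ) *
        ((∑ t : (ZMod m)ˣ, stdAddChar ((t : ZMod m) * bf f)) *
          ex (-∑ i, (μ f i : ℝ) * x i)))
      have h4 := neg_abs_le ((Cf f : ℂ) *
        ((∑ t : (ZMod m)ˣ, stdAddChar ((t : ZMod m) * bf f)) *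
          ex (-∑ i, (μ f i : ℝ) * x i))).re
      linarith
  have hlower : G * (∑ j ∈ Finset.range (N + 1), c j * c j) ^ r - G / P ≤
      (∑ t : (ZMod m)ˣ, W t).re := by
    have h1 : (∑ t : (ZMod m)ˣ, W t).re = ∑ f ∈ Fintype.piFinset fun _ : ι => S,
        (∑ t : (ZMod m)ˣ, (Cf f : ℂ) *
          (stdAddChar ((t : ZMod m) * bf f) * ex (-∑ i, (μ f i : ℝ) * x i))).re := by
      rw [← Complex.re_sum, Finset.sum_comm]
      congr 1
      exact Finset.sum_congr rfl fun t _ => hWexp t
    rw [h1]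
    refine le_trans (le_of_eq ?_) (Finset.sum_le_sum hterm)
    rw [Finset.sum_sub_distrib]
    have h2 : ∑ f ∈ Fintype.piFinset fun _ : ι => S,
        G * (Cf f * (if ∀ i, (f i).1 = (f i).2 then 1 else 0)) =
        G * (∑ j ∈ Finset.range (N + 1), c j * c j) ^ r := by
      rw [← Finset.mul_sum]
      congr 1
      have h3 : ∀ f : ι → ℕ × ℕ, Cf f * (if ∀ i, (f i).1 = (f i).2 then (1 : ℝ) else 0) =
          ∏ i, (c (f i).1 * c (f i).2 * if (f i).1 = (f i).2 then 1 else 0) := by
        intro f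
        rw [Finset.prod_mul_distrib (f := fun i => c (f i).1 * c (f i).2)]
        congr 1
        rw [Finset.prod_ite_zero]
        simp
      rw [Finset.sum_congr rfl fun f _ => h3 f, ← Finset.prod_univ_sum (fun _ : ι => S)
        (fun _ p => c p.1 * c p.2 * if p.1 = p.2 then 1 else 0), Finset.prod_const,
        Finset.card_univ]
      congr 1
      rw [Finset.sum_product]
      refine Finset.sum_congr rfl fun j hj => ?_
      rw [Finset.sum_eq_single j]
      · simp
      · intro k _ hk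
        rw [if_neg (Ne.symm hk), mul_zero]
      · intro h
        exact absurd hj h
    have h4 : ∑ f ∈ Fintype.piFinset fun _ : ι => S, G * Cf f / P = G / P := by
      rw [← Finset.sum_div, ← Finset.mul_sum]
      have h5 : ∑ f ∈ Fintype.piFinset fun _ : ι => S, Cf f = 1 := by
        simp only [Cf]
        rw [← Finset.prod_univ_sum (fun _ : ι => S) (fun _ p => c p.1 * c p.2),
          Finset.prod_const]
        have : ∑ p ∈ S, c p.1 * c p.2 = 1 := by
          rw [Finset.sum_product, ← Finset.sum_mul_sum, hcsum, mul_one]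
        rw [this, one_pow]
      rw [h5, mul_one]
    rw [h2, h4]
  have hupper : (∑ t : (ZMod m)ˣ, W t).re ≤ G * q ^ N := by
    refine (Complex.re_le_norm _).trans ((norm_sum_le _ _).trans ?_)
    refine (Finset.sum_le_sum fun t _ => hWnorm t).trans ?_
    simp [hG]
  have hfin : G * (1 / ((N : ℝ) + 1)) ^ r - G / P ≤ G * q ^ N := by
    have h1 : (1 / ((N : ℝ) + 1)) ^ r ≤ (∑ j ∈ Finset.range (N + 1), c j * c j) ^ r :=
      pow_le_pow_left₀ (by positivity) hcsq r
    have h2 := mul_le_mul_of_nonneg_left h1 hGpos.le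
    linarith
  have h3 : (1 / ((N : ℝ) + 1)) ^ r - 1 / P ≤ q ^ N := by
    have h4 : G * ((1 / ((N : ℝ) + 1)) ^ r - 1 / P) ≤ G * q ^ N := by
      rw [mul_sub, mul_one_div]
      exact hfin
    exact le_of_mul_le_mul_left h4 hGpos
  have h5 : (1 / ((N : ℝ) + 1)) ^ r = 2 * (1 / P) := by
    rw [hP]
    push_cast
    rw [div_pow, one_pow]
    field_simp
  rw [h5] at h3
  have h6 : (1 : ℝ) / P ≤ q ^ N := by linarith
  rw [div_le_iff₀ hPpos] at h6
  rw [hP] at h6
  push_cast at h6
  linarith

end Pool.Agent.LevelOne
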