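import Pool.Agent.Lib.MP_386e47_h75.Defs

/-!
# The sawtooth function
-/

set_option autoImplicit false

namespace Pool.Agent.LevelOne

lemma saw_int (n : ℤ) : saw n = 0 := by simp [saw]

lemma saw_zero : saw 0 = 0 := by simp [saw]

lemma fract_eq_zero_iff {x : ℝ} : Int.fract x = 0 ↔ ∃ n : ℤ, x = n := by
  rw [Int.fract_eq_iff]
  constructor
  · rintro ⟨-, -, z, hz⟩
    exact ⟨z, by simpa using hz⟩
  · rintro ⟨n, rfl⟩
    exact ⟨le_refl _, zero_lt_one, n, by simp⟩

lemma saw_of_ne {x : ℝ} (h : ∀ n : ℤ, x ≠ n) : saw x = Int.fract x - 1 / 2 := by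
  unfold saw
  rw [if_neg]
  intro h0
  obtain ⟨n, hn⟩ := fract_eq_zero_iff.1 h0
  exact h n hn

lemma saw_add_int (x : ℝ) (n : ℤ) : saw (x + n) = saw x := by
  simp [saw]

lemma saw_add_one (x : ℝ) : saw (x + 1) = saw x := by
  simpa using saw_add_int x 1

lemma saw_periodic : Function.Periodic saw 1 := saw_add_one

/-- The values of the sawtooth function on `(0, 1)`. -/
lemma saw_of_mem {x : ℝ} (h0 : 0 < x) (h1 : x < 1) : saw x = x - 1 / 2 := by
  have h2 : Int.fract x = x := Int.fract_eq_self.2 ⟨h0.le, h1⟩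
  unfold saw
  rw [h2, if_neg h0.ne']

lemma saw_of_mem_int {x : ℝ} (n : ℤ) (h0 : (n : ℝ) < x) (h1 : x < n + 1) :
    saw x = x - n - 1 / 2 := by
  have h2 : saw x = saw (x - n) := by
    rw [← saw_add_int (x - n) n]
    congr 1
    ring
  rw [h2, saw_of_mem (by linarith) (by linarith)]

lemma saw_neg (x : ℝ) : saw (-x) = -saw x := by
  by_cases h : ∃ n : ℤ, x = n
  · obtain ⟨n, rfl⟩ := h
    rw [saw_int]
    have := saw_int (-n)
    push_cast at this
    rw [this, neg_zero]
  · push Not at h
    have h1 : Int.fract x ≠ 0 := fun h0 => by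
      obtain ⟨n, hn⟩ := fract_eq_zero_iff.1 h0
      exact h n hn
    rw [saw_of_ne h, saw_of_ne, Int.fract_neg h1]
    · ring
    · intro n hn
      apply h (-n)
      push_cast
      linarith

lemma abs_saw_lt (x : ℝ) : |saw x| ≤ 1 / 2 := by
  unfold saw
  split_ifs with h
  · norm_num
  · rw [abs_le]
    have h1 := Int.fract_nonneg x
    have h2 := Int.fract_lt_one x
    constructor <;> linarith

/-- The distribution relation for the prime two. -/
lemma saw_half (x : ℝ) : saw x + saw (x + 1 / 2) = saw (2 * x) := by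
  have key : ∀ y : ℝ, 0 ≤ y → y < 1 → saw y + saw (y + 1 / 2) = saw (2 * y) := by
    intro y h0 h1
    rcases eq_or_lt_of_le h0 with h | h
    · subst h
      rw [saw_zero, mul_zero, saw_zero, zero_add, zero_add, saw_of_mem (by norm_num) (by norm_num)]
      norm_num
    · rcases lt_trichotomy y (1 / 2) with h2 | h2 | h2
      · rw [saw_of_mem h h1, saw_of_mem (by linarith) (by linarith),
          saw_of_mem (by linarith) (by linarith)]
        ring
      · subst h2
        have e1 : ((1 : ℝ) / 2 + 1 / 2) = ((1 : ℤ) : ℝ) := by norm_num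
        have e2 : (2 * ((1 : ℝ) / 2)) = ((1 : ℤ) : ℝ) := by norm_num
        rw [e1, e2, saw_int, saw_of_mem (by norm_num) (by norm_num)]
        norm_num
      · rw [saw_of_mem h h1, saw_of_mem_int 1 (by push_cast; linarith) (by push_cast; linarith),
          saw_of_mem_int 1 (by push_cast; linarith) (by push_cast; linarith)]
        push_cast
        ring
  have h1 := key (Int.fract x) (Int.fract_nonneg x) (Int.fract_lt_one x)
  have h2 : x = Int.fract x + (⌊x⌋ : ℤ) := (Int.fract_add_floor x).symm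
  have e1 : saw x = saw (Int.fract x) := by
    conv_lhs => rw [h2]
    rw [saw_add_int]
  have e2 : saw (x + 1 / 2) = saw (Int.fract x + 1 / 2) := by
    conv_lhs => rw [h2]
    rw [show Int.fract x + (⌊x⌋ : ℝ) + 1 / 2 = Int.fract x + 1 / 2 + (⌊x⌋ : ℤ) by ring,
      saw_add_int]
  have e3 : saw (2 * x) = saw (2 * Int.fract x) := by
    conv_lhs => rw [h2]
    rw [show 2 * (Int.fract x + (⌊x⌋ : ℝ)) = 2 * Int.fract x + ((2 * ⌊x⌋ : ℤ) : ℝ) by
      push_cast; ring, saw_add_int]
  rw [e1, e2, e3]
  exact h1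

/-- The local shape of the sawtooth function: near an arbitrary point it is affine of slope one
on both sides, and at an integer it jumps by minus one. -/
lemma saw_local (x : ℝ) : ∃ ε > 0, ∀ h : ℝ, h ≠ 0 → |h| < ε →
    (∀ n : ℤ, x + h ≠ n) ∧
    saw (x + h) = saw x + h - (if Int.fract x = 0 then ((SignType.sign h : SignType) : ℝ) / 2 else 0) := by
  by_cases hx : Int.fract x = 0
  · obtain ⟨n, rfl⟩ := fract_eq_zero_iff.1 hx
    refine ⟨1, one_pos, fun h h0 h1 => ?_⟩
    rw [abs_lt] at h1
    rw [if_pos (by simp), saw_int]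
    rcases lt_or_gt_of_ne h0 with h2 | h2
    · refine ⟨fun k hk => ?_, ?_⟩
      · have h3 : h = ((k - n : ℤ) : ℝ) := by push_cast; linarith
        rw [h3] at h1 h2
        have h4 : (k - n) < 0 := by exact_mod_cast h2
        have h5 : -1 < (k - n) := by exact_mod_cast h1.1
        omega
      · rw [saw_of_mem_int (n - 1) (by push_cast; linarith) (by push_cast; linarith),
          sign_neg h2, SignType.coe_neg_one]
        push_cast
        ring
    · refine ⟨fun k hk => ?_, ?_⟩
      · have h3 : h = ((k - n : ℤ) : ℝ) := by push_cast; linarith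
        rw [h3] at h1 h2
        have h4 : 0 < (k - n) := by exact_mod_cast h2
        have h5 : (k - n) < 1 := by exact_mod_cast h1.2
        omega
      · rw [saw_of_mem_int n (by linarith) (by linarith), sign_pos h2, SignType.coe_one]
        ring
  · have h1 : 0 < Int.fract x := lt_of_le_of_ne (Int.fract_nonneg x) (Ne.symm hx)
    have h2 := Int.fract_lt_one x
    refine ⟨min (Int.fract x) (1 - Int.fract x), lt_min h1 (by linarith), fun h h0 h3 => ?_⟩
    have h4 := abs_lt.1 (lt_of_lt_of_le h3 (min_le_left _ _))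
    have h5 := abs_lt.1 (lt_of_lt_of_le h3 (min_le_right _ _))
    have h6 : x = Int.fract x + (⌊x⌋ : ℝ) := (Int.fract_add_floor x).symm
    have hne : ∀ n : ℤ, x ≠ n := fun n hn => hx (fract_eq_zero_iff.2 ⟨n, hn⟩)
    rw [if_neg hx, sub_zero, saw_of_ne hne]
    refine ⟨fun k hk => ?_, ?_⟩
    · have h7 : (⌊x⌋ : ℝ) < k := by linarith
      have h8 : (k : ℝ) < ⌊x⌋ + 1 := by linarith
      have h9 : ⌊x⌋ < k := by exact_mod_cast h7
      have h10 : k < ⌊x⌋ + 1 := by exact_mod_cast h8
      omega
    · rw [saw_of_mem_int ⌊x⌋ (by linarith) (by linarith)]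
      linarith

end Pool.Agent.LevelOne
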