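import Pool.Agent.Lib.MP_386e47_h75.Energy

/-!
# Stable sums in several variables
-/

set_option autoImplicit false

namespace Pool.Agent.LevelOne

open MeasureTheory

variable {ι κ : Type*} [Fintype ι] [Fintype κ]

lemma sawC_neg (x : UnitAddCircle) : sawC (-x) = -sawC x := by
  induction x using QuotientAddGroup.induction_on with
  | H x => exact saw_neg x

/-- Proportional integer vectors. -/
def Prop' (v w : κ → ℤ) : Prop := ∃ a b : ℤ, a ≠ 0 ∧ a • v = b • w

omit [Fintype κ] in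
lemma smul_ne_zero' {a : ℤ} {v : κ → ℤ} (ha : a ≠ 0) (hv : v ≠ 0) : a • v ≠ 0 := by
  intro h
  apply hv
  funext j
  have := congrFun h j
  simp only [Pi.smul_apply, smul_eq_mul, Pi.zero_apply, mul_eq_zero] at this
  rcases this with h | h
  · exact absurd h ha
  · simpa using h

omit [Fintype κ] in
lemma Prop'.symm {v w : κ → ℤ} (hv : v ≠ 0) (h : Prop' v w) : Prop' w v := by
  obtain ⟨a, b, ha, hab⟩ := h
  refine ⟨b, a, ?_, hab.symm⟩
  rintro rfl
  rw [zero_smul] at hab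
  exact smul_ne_zero' ha hv hab

omit [Fintype κ] in
lemma Prop'.trans {u v w : κ → ℤ} (h : Prop' u v) (h' : Prop' v w) : Prop' u w := by
  obtain ⟨a, b, ha, hab⟩ := h
  obtain ⟨c, d, hc, hcd⟩ := h'
  refine ⟨c * a, b * d, mul_ne_zero hc ha, ?_⟩
  rw [mul_smul, hab, smul_comm, hcd, smul_smul]

/-- The structure of one class of a stable family. -/
lemma class_of_stable (v : ι → (κ → ℤ)) (hv0 : ∀ i, v i ≠ 0) (hp : ∀ i j, v i + v j ≠ 0)
    (hst : Stable v) (C : Finset ι) (i0 : ι) (hi0 : i0 ∈ C)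
    (hC : ∀ i, i ∈ C ↔ Prop' (v i) (v i0)) :
    ((∃ i, C = {i}) ∨ ∃ i j, i ≠ j ∧ (∀ x, x ∈ C ↔ x = i ∨ x = j) ∧ v i = (-2 : ℤ) • v j) ∨
      ∀ᵐ θ : κ → UnitAddCircle, |∑ i ∈ C, sawC (chr (v i) θ)| = 1 / 2 := by
  classical
  -- a common denominator
  have hab : ∀ i, ∃ a b : ℤ, a ≠ 0 ∧ (i ∈ C → a • v i = b • v i0) := by
    intro i
    by_cases hi : i ∈ C
    · obtain ⟨a, b, ha, h⟩ := (hC i).1 hi
      exact ⟨a, b, ha, fun _ => h⟩
    · exact ⟨1, 0, one_ne_zero, fun h => absurd h hi⟩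
  choose a b ha hab using hab
  set N : ℤ := ∏ i, a i with hN
  have hN0 : N ≠ 0 := Finset.prod_ne_zero_iff.2 fun i _ => ha i
  let q : ι → ℤ := fun i => b i * (N / a i)
  have hNd : ∀ i, (N / a i) * a i = N := fun i =>
    Int.ediv_mul_cancel (Finset.dvd_prod_of_mem a (Finset.mem_univ i))
  have hvq : ∀ i ∈ C, N • v i = q i • v i0 := by
    intro i hi
    rw [← hNd i, mul_smul, hab i hi, smul_smul]
    simp only [q]
    rw [mul_comm]
  have hq : ∀ i ∈ C, q i ≠ 0 := by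
    intro i hi h0
    have := hvq i hi
    rw [h0, zero_smul] at this
    exact smul_ne_zero' hN0 (hv0 i) this
  have hqp : ∀ i ∈ C, ∀ j ∈ C, q i + q j ≠ 0 := by
    intro i hi j hj h0
    have : N • (v i + v j) = 0 := by
      rw [smul_add, hvq i hi, hvq j hj, ← add_smul, h0, zero_smul]
    exact smul_ne_zero' hN0 (hp i j) this
  have hJ : ∀ ρ, jump C q ρ ≠ 0 → |jump C q ρ| = 1 ∧ gsum C q ρ = 0 := fun ρ hρ =>
    wall v hst C q (v i0) (hv0 i0) N hN0 hq hvq (fun i hi a b ha h =>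
      hi ((hC i).2 ⟨a, b, ha, h⟩)) ρ hρ
  rcases class_structure C q ⟨i0, hi0⟩ hq hqp hJ with ⟨-, h⟩ | ⟨-, h⟩
  · left
    rcases h with h | ⟨i, j, hij, hx, hqij⟩
    · exact Or.inl h
    · right
      refine ⟨i, j, hij, hx, ?_⟩
      have hi : i ∈ C := (hx i).2 (Or.inl rfl)
      have hj : j ∈ C := (hx j).2 (Or.inr rfl)
      have h1 : N • (v i - (-2 : ℤ) • v j) = 0 := by
        rw [smul_sub, smul_comm N (-2 : ℤ), hvq i hi, hvq j hj, smul_smul, hqij, sub_self]
      by_contra hne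
      exact smul_ne_zero' hN0 (sub_ne_zero.2 hne) h1
  · right
    have h2 : ∀ᵐ θ : κ → UnitAddCircle, ∀ i, chr (v i) θ ≠ 0 :=
      ae_all_iff.2 fun i => ae_chr_ne_zero (v i) (hv0 i)
    filter_upwards [h2] with θ hθ
    obtain ⟨t, rfl⟩ := exists_lift θ
    have hNr : (N : ℝ) ≠ 0 := by exact_mod_cast hN0
    have hdot : ∀ i ∈ C, dot (v i) t = (q i : ℝ) * (dot (v i0) t / N) := by
      intro i hi
      have h9 := smul_dot N (v i) t
      rw [hvq i hi, smul_dot] at h9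
      field_simp
      linarith
    have h3 := h (dot (v i0) t / N) (by
      intro i hi n hn
      apply hθ i
      rw [chr_coe, coe_eq_zero_iff', hdot i hi]
      exact ⟨n, hn⟩)
    rw [← h3]
    congr 1
    refine Finset.sum_congr rfl fun i hi => ?_
    rw [chr_coe, sawC_coe, hdot i hi]

omit [Fintype ι] in
/-- The second moment of a class. -/
lemma class_energy (v : ι → (κ → ℤ)) (hv0 : ∀ i, v i ≠ 0) (C : Finset ι)
    (h : (∃ i, C = {i}) ∨ ∃ i j, i ≠ j ∧ (∀ x, x ∈ C ↔ x = i ∨ x = j) ∧ v i = (-2 : ℤ) • v j) :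
    ∫ θ : κ → UnitAddCircle, (∑ i ∈ C, sawC (chr (v i) θ)) ^ 2 = 1 / 12 := by
  classical
  rcases h with ⟨i, rfl⟩ | ⟨i, j, hij, hx, hv⟩
  · have := integral_sq_chr (v i) (hv0 i) 0
    simpa using this
  · have hC : C = {i, j} := by
      ext x
      rw [hx x]
      simp
    have hw : -v j ≠ 0 := neg_ne_zero.2 (hv0 j)
    have := integral_sq_chr (-v j) hw ((1 / 2 : ℝ) : UnitAddCircle)
    rw [← this]
    refine integral_congr_ae (Filter.Eventually.of_forall fun θ => ?_)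
    simp only
    rw [hC, Finset.sum_pair hij, hv]
    have e1 : chr ((-2 : ℤ) • v j) θ = (2 : ℤ) • chr (-v j) θ := by
      rw [← chr_smul]
      congr 2
      simp
    have e2 : chr (v j) θ = -chr (-v j) θ := by
      have : chr (-v j) θ = (-1 : ℤ) • chr (v j) θ := by
        rw [← chr_smul]
        congr 2
        simp
      rw [this]
      simp
    rw [e1, e2, sawC_neg]
    have := sawC_half (chr (-v j) θ)
    congr 1
    linarith

/-- Stable families in several variables. -/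
theorem structure_of_stable (v : ι → (κ → ℤ)) (hv0 : ∀ i, v i ≠ 0) (hp : ∀ i j, v i + v j ≠ 0)
    (hst : Stable v) (hodd : Odd (Fintype.card ι))
    (hnp : ∃ i j, ¬ Prop' (v i) (v j)) :
    Fintype.card ι = 3 ∨ (Fintype.card ι = 5 ∧ ∃ i₁ j₁ i₂ j₂ k,
      (∀ x, x = i₁ ∨ x = j₁ ∨ x = i₂ ∨ x = j₂ ∨ x = k) ∧
        v i₁ = (-2 : ℤ) • v j₁ ∧ v i₂ = (-2 : ℤ) • v j₂) := by
  classical
  let S : Setoid ι :=
    { r := fun i j => Prop' (v i) (v j)
      iseqv := ⟨fun i => ⟨1, 1, one_ne_zero, rfl⟩, fun {i j} h => h.symm (hv0 i),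
        fun h h' => h.trans h'⟩ }
  let γ := Quotient S
  have : Fintype γ := Fintype.ofFinite γ
  let cls : ι → γ := Quotient.mk S
  have hcls : ∀ i j, cls i = cls j ↔ Prop' (v i) (v j) := fun i j => Quotient.eq
  let C : γ → Finset ι := fun c => Finset.univ.filter fun i => cls i = c
  have hCne : ∀ c, ∃ i, i ∈ C c := by
    intro c
    obtain ⟨i, hi⟩ := Quotient.exists_rep c
    exact ⟨i, by simp [C, cls, hi]⟩
  have hen := energy v hv0 hst cls (fun i j hij a b ha h => hij ((hcls i j).2 ⟨a, b, ha, h⟩))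
  have hstr : ∀ c, ((∃ i, C c = {i}) ∨
      ∃ i j, i ≠ j ∧ (∀ x, x ∈ C c ↔ x = i ∨ x = j) ∧ v i = (-2 : ℤ) • v j) ∨
      ∀ᵐ θ : κ → UnitAddCircle, |∑ i ∈ C c, sawC (chr (v i) θ)| = 1 / 2 := by
    intro c
    obtain ⟨i0, hi0⟩ := hCne c
    refine class_of_stable v hv0 hp hst (C c) i0 hi0 fun i => ?_
    have h1 : cls i0 = c := by simpa [C] using hi0
    rw [← hcls, h1]
    simp [C]
  let E : γ → ℝ := fun c => ∫ θ : κ → UnitAddCircle, (∑ i ∈ C c, sawC (chr (v i) θ)) ^ 2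
  have hE : ∑ c, E c = 1 / 4 := hen
  have hE2 : ∀ c, (∀ᵐ θ : κ → UnitAddCircle, |∑ i ∈ C c, sawC (chr (v i) θ)| = 1 / 2) →
      E c = 1 / 4 := by
    intro c hc
    have : ∀ᵐ θ : κ → UnitAddCircle, (∑ i ∈ C c, sawC (chr (v i) θ)) ^ 2 = 1 / 4 := by
      filter_upwards [hc] with θ hθ
      rw [← sq_abs, hθ]
      norm_num
    simp only [E]
    rw [integral_congr_ae this]
    simp [Measure.real, volume_torus]
  have hEpos : ∀ c, 1 / 12 ≤ E c := by
    intro c
    rcases hstr c with h | h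
    · exact (class_energy v hv0 (C c) h).ge
    · rw [hE2 c h]
      norm_num
  -- no class of the last type
  obtain ⟨i, j, hij⟩ := hnp
  have hne : cls i ≠ cls j := fun h => hij ((hcls i j).1 h)
  have hstr' : ∀ c, (∃ i, C c = {i}) ∨
      ∃ i j, i ≠ j ∧ (∀ x, x ∈ C c ↔ x = i ∨ x = j) ∧ v i = (-2 : ℤ) • v j := by
    intro c
    rcases hstr c with h | h
    · exact h
    exfalso
    have h1 := hE2 c h
    obtain ⟨d, hd⟩ : ∃ d, d ≠ c := by
      by_cases hic : cls i = c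
      · exact ⟨cls j, fun h => hne (hic.trans h.symm)⟩
      · exact ⟨cls i, hic⟩
    have h2 : E c + E d ≤ ∑ c, E c := by
      rw [← Finset.sum_pair hd.symm]
      exact Finset.sum_le_sum_of_subset_of_nonneg (Finset.subset_univ _)
        fun e _ _ => le_trans (by norm_num) (hEpos e)
    have h3 := hEpos d
    rw [hE, h1] at h2
    linarith
  have hE3 : ∀ c, E c = 1 / 12 := fun c => class_energy v hv0 (C c) (hstr' c)
  have hcard : Fintype.card γ = 3 := by
    simp only [hE3, Finset.sum_const, Finset.card_univ, nsmul_eq_mul] at hE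
    have : (Fintype.card γ : ℝ) = 3 := by linarith
    exact_mod_cast this
  have hsum : Fintype.card ι = ∑ c, (C c).card := by
    rw [← Finset.card_univ]
    exact Finset.card_eq_sum_card_fiberwise fun i _ => Finset.mem_univ _
  let e : Fin 3 ≃ γ := (Fintype.equivFinOfCardEq hcard).symm
  have hsum3 : Fintype.card ι = (C (e 0)).card + (C (e 1)).card + (C (e 2)).card := by
    rw [hsum, ← e.sum_comp, Fin.sum_univ_three]
  have hcover : ∀ x, x ∈ C (e 0) ∨ x ∈ C (e 1) ∨ x ∈ C (e 2) := by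
    intro x
    obtain ⟨k, hk⟩ := e.surjective (cls x)
    fin_cases k
    · exact Or.inl (by simpa [C] using hk.symm)
    · exact Or.inr (Or.inl (by simpa [C] using hk.symm))
    · exact Or.inr (Or.inr (by simpa [C] using hk.symm))
  have hc1 : ∀ c i, C c = {i} → (C c).card = 1 := fun c i h => by rw [h]; simp
  have hc2 : ∀ c i j, i ≠ j → (∀ x, x ∈ C c ↔ x = i ∨ x = j) → (C c).card = 2 := by
    intro c i j hij hx
    have : C c = {i, j} := by
      ext x
      rw [hx x]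
      simp
    rw [this, Finset.card_pair hij]
  have hm1 : ∀ c i, C c = {i} → ∀ x, x ∈ C c → x = i := fun c i h x hx => by
    rw [h] at hx
    simpa using hx
  rcases hstr' (e 0) with ⟨i0, h0⟩ | ⟨i0, j0, h0, h0x, h0v⟩ <;>
  rcases hstr' (e 1) with ⟨i1, h1⟩ | ⟨i1, j1, h1, h1x, h1v⟩ <;>
  rcases hstr' (e 2) with ⟨i2, h2⟩ | ⟨i2, j2, h2, h2x, h2v⟩
  · left
    rw [hsum3, hc1 _ _ h0, hc1 _ _ h1, hc1 _ _ h2]
  · exfalso
    rw [hsum3, hc1 _ _ h0, hc1 _ _ h1, hc2 _ _ _ h2 h2x] at hodd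
    exact absurd hodd (by decide)
  · exfalso
    rw [hsum3, hc1 _ _ h0, hc2 _ _ _ h1 h1x, hc1 _ _ h2] at hodd
    exact absurd hodd (by decide)
  · right
    refine ⟨by rw [hsum3, hc1 _ _ h0, hc2 _ _ _ h1 h1x, hc2 _ _ _ h2 h2x],
      i1, j1, i2, j2, i0, fun x => ?_, h1v, h2v⟩
    have := hm1 _ _ h0 x
    have h1x' := h1x x
    have h2x' := h2x x
    have := hcover x
    tauto
  · exfalso
    rw [hsum3, hc2 _ _ _ h0 h0x, hc1 _ _ h1, hc1 _ _ h2] at hodd
    exact absurd hodd (by decide)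
  · right
    refine ⟨by rw [hsum3, hc2 _ _ _ h0 h0x, hc1 _ _ h1, hc2 _ _ _ h2 h2x],
      i0, j0, i2, j2, i1, fun x => ?_, h0v, h2v⟩
    have := hm1 _ _ h1 x
    have h1x' := h0x x
    have h2x' := h2x x
    have := hcover x
    tauto
  · right
    refine ⟨by rw [hsum3, hc2 _ _ _ h0 h0x, hc2 _ _ _ h1 h1x, hc1 _ _ h2],
      i0, j0, i1, j1, i2, fun x => ?_, h0v, h1v⟩
    have := hm1 _ _ h2 x
    have h1x' := h0x x
    have h2x' := h1x x
    have := hcover x
    tauto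
  · exfalso
    rw [hsum3, hc2 _ _ _ h0 h0x, hc2 _ _ _ h1 h1x, hc2 _ _ _ h2 h2x] at hodd
    exact absurd hodd (by decide)

end Pool.Agent.LevelOne
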