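import Pool.Agent.Lib.MP_386e47_h75.Struct
import Pool.Agent.Lib.MP_386e47_h75.Kernel

/-!
# Level-one families without cancelling pairs
-/

set_option autoImplicit false

namespace Pool.Agent.LevelOne

open Filter

/-- The level-one condition for a family of residues. -/
def LevelFam (k m : ℕ) {r : ℕ} (a : Fin r → ZMod m) : Prop :=
  (∀ i, a i ≠ 0) ∧ ∑ i, a i = 0 ∧ ∀ t : (ZMod m)ˣ,
    ∑ i, ((t : ZMod m) * a i).val = k * m ∨ ∑ i, ((t : ZMod m) * a i).val = (k + 1) * m

/-- A stable family of integers. -/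
def StableFam (k : ℕ) {r : ℕ} (q : Fin r → ℤ) : Prop :=
  (∀ i, q i ≠ 0) ∧ ∑ i, q i = 0 ∧ ∀ lam : ℝ, (∀ i, ∀ n : ℤ, lam * q i ≠ n) →
    ∑ i, Int.fract (lam * q i) = k ∨ ∑ i, Int.fract (lam * q i) = k + 1

/-- The conclusion for a family of residues without cancelling pairs. -/
def FamOK (k H m : ℕ) {r : ℕ} (a : Fin r → ZMod m) : Prop :=
  r = 3 ∨ (r = 5 ∧ ∃ i₁ j₁ i₂ j₂ l, (∀ x : Fin r, x = i₁ ∨ x = j₁ ∨ x = i₂ ∨ x = j₂ ∨ x = l) ∧
    a i₁ + 2 * a j₁ = 0 ∧ a i₂ + 2 * a j₂ = 0) ∨
  ∃ q : Fin r → ℤ, StableFam k q ∧ (∀ i, |q i| ≤ H) ∧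
    ∃ t : ZMod m, ∀ i, a i = (q i : ZMod m) * t

lemma close_fract {f y δ : ℝ} {c : ℤ} (hf0 : δ < f) (hf1 : f < 1 - δ) (hy0 : 0 ≤ y) (hy1 : y < 1)
    (h : |y - f - c| < δ) : c = 0 := by
  rw [abs_lt] at h
  have h1 : (-1 : ℝ) < c := by linarith
  have h2 : (c : ℝ) < 1 := by linarith
  have h3 : (-1 : ℤ) < c := by exact_mod_cast h1
  have h4 : c < 1 := by exact_mod_cast h2
  omega

theorem pairfree (k r : ℕ) (hr : r = 2 * k + 1) : ∃ P H : ℕ, ∀ (m : ℕ) [NeZero m],
    (∀ p, p.Prime → p ∣ m → P < p) →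
    ∀ a : Fin r → ZMod m, LevelFam k m a → (∀ i j, i ≠ j → a i + a j ≠ 0) →
      FamOK k H m a := by
  classical
  by_contra hcon
  push Not at hcon
  have hcon' : ∀ n : ℕ, ∃ (m : ℕ) (_ : NeZero m) (a : Fin r → ZMod m),
      (∀ p, p.Prime → p ∣ m → n < p) ∧ LevelFam k m a ∧ (∀ i j, i ≠ j → a i + a j ≠ 0) ∧
        ¬ FamOK k n m a := by
    intro n
    obtain ⟨m, hm, h1, a, h2, h3, h4⟩ := hcon n n
    exact ⟨m, hm, a, h1, h2, h3, h4⟩
  choose m hm a hprime hlev hpf hbad using hcon'
  let U : Ultrafilter ℕ := hyperfilter ℕ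
  have hUge : ∀ N : ℕ, ∀ᶠ n in (U : Filter ℕ), N ≤ n := fun N =>
    Nat.hyperfilter_le_atTop (eventually_ge_atTop N)
  let rel : (Fin r → ℤ) → ℕ → Prop := fun μ n => ∑ i, (μ i : ZMod (m n)) * a n i = 0
  -- the lattice of relations
  let L : Submodule ℤ (Fin r → ℤ) :=
    { carrier := {μ | ∀ᶠ n in (U : Filter ℕ), rel μ n}
      zero_mem' := by
        refine Filter.Eventually.of_forall fun n => ?_
        simp [rel]
      add_mem' := by
        intro μ ν hμ hν
        filter_upwards [hμ, hν] with n h1 h2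
        simp only [rel] at h1 h2 ⊢
        have : ∑ i, (((μ + ν) i : ℤ) : ZMod (m n)) * a n i =
            ∑ i, (μ i : ZMod (m n)) * a n i + ∑ i, (ν i : ZMod (m n)) * a n i := by
          rw [← Finset.sum_add_distrib]
          refine Finset.sum_congr rfl fun i _ => ?_
          rw [Pi.add_apply]
          push_cast
          ring
        rw [this, h1, h2, add_zero]
      smul_mem' := by
        intro c μ hμ
        filter_upwards [hμ] with n h1
        simp only [rel] at h1 ⊢
        have : ∑ i, (((c • μ) i : ℤ) : ZMod (m n)) * a n i =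
            (c : ZMod (m n)) * ∑ i, (μ i : ZMod (m n)) * a n i := by
          rw [Finset.mul_sum]
          refine Finset.sum_congr rfl fun i _ => ?_
          rw [Pi.smul_apply, smul_eq_mul]
          push_cast
          ring
        rw [this, h1, mul_zero] }
  have hLmem : ∀ μ, μ ∈ L ↔ ∀ᶠ n in (U : Filter ℕ), rel μ n := fun μ => Iff.rfl
  have hLnot : ∀ μ, μ ∉ L → ∀ᶠ n in (U : Filter ℕ), ¬ rel μ n := by
    intro μ hμ
    rw [hLmem] at hμ
    exact Ultrafilter.eventually_not.2 hμ
  have hsat : ∀ (c : ℤ) (μ : Fin r → ℤ), c ≠ 0 → c • μ ∈ L → μ ∈ L := by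
    intro c μ hc h
    rw [hLmem] at h ⊢
    filter_upwards [h, hUge c.natAbs] with n h1 h2
    simp only [rel] at h1 ⊢
    have h3 : ∑ i, (((c • μ) i : ℤ) : ZMod (m n)) * a n i =
        (c : ZMod (m n)) * ∑ i, (μ i : ZMod (m n)) * a n i := by
      rw [Finset.mul_sum]
      refine Finset.sum_congr rfl fun i _ => ?_
      rw [Pi.smul_apply, smul_eq_mul]
      push_cast
      ring
    rw [h3] at h1
    have h4 : IsUnit (c : ZMod (m n)) := by
      have h5 : Nat.Coprime c.natAbs (m n) := by
        refine Nat.coprime_of_dvd fun p hp hpc hpm => ?_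
        have h6 := hprime n p hp hpm
        have h7 := Nat.le_of_dvd (Int.natAbs_pos.2 hc) hpc
        omega
      have h6 : IsUnit ((c.natAbs : ℕ) : ZMod (m n)) := (ZMod.isUnit_iff_coprime _ _).2 h5
      rcases Int.natAbs_eq c with h7 | h7
      · have h8 : (c : ZMod (m n)) = ((c.natAbs : ℕ) : ZMod (m n)) := by
          have := congrArg (fun z : ℤ => (z : ZMod (m n))) h7
          simpa only [Int.cast_natCast] using this
        rw [h8]
        exact h6
      · have h8 : (c : ZMod (m n)) = -((c.natAbs : ℕ) : ZMod (m n)) := by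
          have := congrArg (fun z : ℤ => (z : ZMod (m n))) h7
          simpa only [Int.cast_natCast, Int.cast_neg] using this
        rw [h8]
        exact (IsUnit.neg_iff _).2 h6
    exact (h4.mul_right_eq_zero).1 h1
  have : Module.IsTorsionFree ℤ ((Fin r → ℤ) ⧸ L) := by
    refine Module.IsTorsionFree.of_smul_eq_zero fun c z hcz => ?_
    obtain ⟨μ, rfl⟩ := L.mkQ_surjective z
    by_cases hc : c = 0
    · exact Or.inl hc
    · right
      rw [← map_smul, ← LinearMap.mem_ker, Submodule.ker_mkQ] at hcz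
      rw [← LinearMap.mem_ker, Submodule.ker_mkQ]
      exact hsat c μ hc hcz
  let b := Module.Free.chooseBasis ℤ ((Fin r → ℤ) ⧸ L)
  let κ := Module.Free.ChooseBasisIndex ℤ ((Fin r → ℤ) ⧸ L)
  let v : Fin r → (κ → ℤ) := fun i j => b.repr (L.mkQ (Pi.single i 1)) j
  have hcomb : ∀ μ : Fin r → ℤ, ∀ j, ∑ i, μ i * v i j = b.repr (L.mkQ μ) j := by
    intro μ j
    have h1 : μ = ∑ i, μ i • (Pi.single i 1 : Fin r → ℤ) := by
      funext l
      simp [Finset.sum_apply, Pi.single_apply]
    conv_rhs => rw [h1]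
    rw [map_sum, map_sum, Finsupp.finsetSum_apply]
    refine Finset.sum_congr rfl fun i _ => ?_
    rw [map_smul, map_smul, Finsupp.smul_apply, smul_eq_mul]
  have hcomb0 : ∀ μ : Fin r → ℤ, (∀ j, ∑ i, μ i * v i j = 0) ↔ μ ∈ L := by
    intro μ
    simp only [hcomb]
    constructor
    · intro h
      have h1 : b.repr (L.mkQ μ) = 0 := Finsupp.ext h
      have h2 : L.mkQ μ = 0 := by simpa using h1
      rwa [← LinearMap.mem_ker, Submodule.ker_mkQ] at h2
    · intro h j
      have : L.mkQ μ = 0 := by rwa [← LinearMap.mem_ker, Submodule.ker_mkQ]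
      rw [this]
      simp
  have hsurj : ∀ z : κ → ℤ, ∃ μ : Fin r → ℤ, ∀ j, ∑ i, μ i * v i j = z j := by
    intro z
    obtain ⟨μ, hμ⟩ := L.mkQ_surjective (b.equivFun.symm z)
    refine ⟨μ, fun j => ?_⟩
    rw [hcomb, hμ, ← Module.Basis.equivFun_apply, LinearEquiv.apply_symm_apply]
  have hv0 : ∀ i, v i ≠ 0 := by
    intro i h0
    have h1 : (Pi.single i 1 : Fin r → ℤ) ∈ L := by
      rw [← hcomb0]
      intro j
      have : ∑ l, (Pi.single i 1 : Fin r → ℤ) l * v l j = v i j := by
        simp [Pi.single_apply]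
      rw [this, h0]
      rfl
    rw [hLmem] at h1
    obtain ⟨n, hn⟩ := h1.exists
    simp only [rel] at hn
    apply (hlev n).1 i
    rw [← hn]
    simp [Pi.single_apply]
  have hp : ∀ i j, v i + v j ≠ 0 := by
    intro i j h0
    by_cases hij : i = j
    · subst hij
      apply hv0 i
      funext l
      have := congrFun h0 l
      simp only [Pi.add_apply, Pi.zero_apply] at this ⊢
      omega
    · have h1 : (Pi.single i 1 + Pi.single j 1 : Fin r → ℤ) ∈ L := by
        rw [← hcomb0]
        intro l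
        have : ∑ x, (Pi.single i 1 + Pi.single j 1 : Fin r → ℤ) x * v x l = v i l + v j l := by
          simp [Pi.single_apply, add_mul, Finset.sum_add_distrib]
        rw [this]
        exact congrFun h0 l
      rw [hLmem] at h1
      obtain ⟨n, hn⟩ := h1.exists
      simp only [rel] at hn
      apply hpf n i j hij
      rw [← hn]
      simp [Pi.single_apply, add_mul, Finset.sum_add_distrib]
  have hvsum : ∀ j, ∑ i, v i j = 0 := by
    have h1 : (fun _ => 1 : Fin r → ℤ) ∈ L := by
      rw [hLmem]
      refine Filter.Eventually.of_forall fun n => ?_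
      simp only [rel]
      simpa using (hlev n).2.1
    intro j
    have := (hcomb0 _).2 h1 j
    simpa using this
  -- the family is stable
  have hst0 : ∀ θ : κ → ℝ, (∀ i, ∀ n : ℤ, dot (v i) θ ≠ n) →
      ∑ i, Int.fract (dot (v i) θ) = k ∨ ∑ i, Int.fract (dot (v i) θ) = k + 1 := by
    intro θ hθ
    let x : Fin r → ℝ := fun i => dot (v i) θ
    have hf0 : ∀ i, 0 < Int.fract (x i) := by
      intro i
      refine lt_of_le_of_ne (Int.fract_nonneg _) (Ne.symm fun h => ?_)
      obtain ⟨n, hn⟩ := fract_eq_zero_iff.1 h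
      exact hθ i n hn
    have hf1 : ∀ i, 0 < 1 - Int.fract (x i) := fun i => by
      have := Int.fract_lt_one (x i)
      linarith
    obtain ⟨δ, hδ, hδ1, hδ2⟩ : ∃ δ > 0, (∀ i, δ < Int.fract (x i) ∧ δ < 1 - Int.fract (x i)) ∧
        δ ≤ 1 / ((r : ℝ) + 1) := by
      have hne : (Finset.univ : Finset (Fin r)).Nonempty := ⟨⟨0, by omega⟩, Finset.mem_univ _⟩
      let g : Fin r → ℝ := fun i => min (Int.fract (x i)) (1 - Int.fract (x i))
      obtain ⟨i0, -, hmin⟩ := Finset.exists_min_image Finset.univ g hne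
      have hg : 0 < g i0 := lt_min (hf0 i0) (hf1 i0)
      refine ⟨min (g i0 / 2) (1 / ((r : ℝ) + 1)), lt_min (by linarith) (by positivity),
        fun i => ?_, min_le_right _ _⟩
      have h1 : min (g i0 / 2) (1 / ((r : ℝ) + 1)) < g i :=
        lt_of_le_of_lt (min_le_left _ _) (lt_of_lt_of_le (by linarith) (hmin i (Finset.mem_univ _)))
      exact ⟨lt_of_lt_of_le h1 (min_le_left _ _), lt_of_lt_of_le h1 (min_le_right _ _)⟩
    obtain ⟨N, P, hNP⟩ := exists_unit_near (Fin r) δ hδ
    -- a good index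
    have hfin : {μ : Fin r → ℤ | ∀ i, |μ i| ≤ N}.Finite := by
      have : {μ : Fin r → ℤ | ∀ i, |μ i| ≤ N} ⊆
          Set.pi Set.univ fun _ => Set.Icc (-(N : ℤ)) N := by
        intro μ hμ i _
        exact abs_le.1 (hμ i)
      exact (Set.Finite.pi' fun _ => Set.finite_Icc _ _).subset fun μ hμ i => abs_le.1 (hμ i)
    have hgood : ∀ᶠ n in (U : Filter ℕ), ∀ μ ∈ {μ : Fin r → ℤ | ∀ i, |μ i| ≤ N},
        rel μ n → μ ∈ L := by
      rw [Filter.eventually_all_finite hfin]
      intro μ _
      by_cases hμ : μ ∈ L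
      · exact Filter.Eventually.of_forall fun n _ => hμ
      · filter_upwards [hLnot μ hμ] with n hn h
        exact absurd h hn
    obtain ⟨n, hn1, hn2⟩ := (hgood.and (hUge P)).exists
    have : NeZero (m n) := hm n
    obtain ⟨t, ht⟩ := hNP (m n) (fun p hp hpm => lt_of_le_of_lt hn2 (hprime n p hp hpm)) (a n) x
      (fun μ hμ hrel => by
        refine ⟨0, ?_⟩
        have h1 := (hcomb0 μ).2 (hn1 μ hμ hrel)
        simp only [x]
        unfold dot
        rw [Finset.sum_congr rfl fun i _ => Finset.mul_sum _ _ _, Finset.sum_comm]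
        rw [Finset.sum_eq_zero]
        · simp
        · intro j _
          have h2 : ((∑ i, μ i * v i j : ℤ) : ℝ) = 0 := by rw [h1 j]; simp
          push_cast at h2
          rw [Finset.sum_congr rfl fun i _ => show (μ i : ℝ) * ((v i j : ℝ) * θ j) =
            ((μ i : ℝ) * (v i j : ℝ)) * θ j by ring, ← Finset.sum_mul, h2, zero_mul])
    have hmpos : (0 : ℝ) < m n := by
      have := NeZero.ne (m n)
      positivity
    let y : Fin r → ℝ := fun i => ((((t : ZMod (m n)) * a n i).val : ℕ) : ℝ) / m n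
    have hy0 : ∀ i, 0 ≤ y i := fun i => by positivity
    have hy1 : ∀ i, y i < 1 := by
      intro i
      rw [div_lt_one hmpos]
      exact_mod_cast ZMod.val_lt _
    have hclose : ∀ i, |y i - Int.fract (x i)| < δ := by
      intro i
      obtain ⟨c, hc⟩ := ht i
      have h1 : x i = Int.fract (x i) + ⌊x i⌋ := (Int.fract_add_floor _).symm
      have h2 : |y i - Int.fract (x i) - ((⌊x i⌋ + c : ℤ) : ℝ)| < δ := by
        push_cast
        rw [show y i - Int.fract (x i) - ((⌊x i⌋ : ℝ) + c) = y i - x i - c by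
          rw [Int.fract]; ring]
        exact hc
      have h3 := close_fract (hδ1 i).1 (by linarith [(hδ1 i).2]) (hy0 i) (hy1 i) h2
      rw [h3] at h2
      simpa using h2
    have hsumclose : |∑ i, y i - ∑ i, Int.fract (x i)| < 1 := by
      rw [← Finset.sum_sub_distrib]
      calc |∑ i, (y i - Int.fract (x i))| ≤ ∑ i, |y i - Int.fract (x i)| :=
            Finset.abs_sum_le_sum_abs _ _
        _ ≤ ∑ _i : Fin r, δ := Finset.sum_le_sum fun i _ => (hclose i).le
        _ = r * δ := by simp
        _ ≤ r * (1 / ((r : ℝ) + 1)) := by gcongr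
        _ < 1 := by
            rw [mul_one_div, div_lt_one (by positivity)]
            linarith
    have hysum : ∃ w : ℤ, (w = k ∨ w = k + 1) ∧ ∑ i, y i = w := by
      have h1 : ∑ i, y i = ((∑ i, ((t : ZMod (m n)) * a n i).val : ℕ) : ℝ) / m n := by
        simp only [y]
        rw [← Finset.sum_div]
        push_cast
        rfl
      rcases (hlev n).2.2 t with h | h
      · refine ⟨k, Or.inl rfl, ?_⟩
        rw [h1, h]
        push_cast
        rw [mul_div_assoc, div_self hmpos.ne', mul_one]
      · refine ⟨k + 1, Or.inr rfl, ?_⟩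
        rw [h1, h]
        push_cast
        rw [mul_div_assoc, div_self hmpos.ne', mul_one]
    have hfsum : ∃ w : ℤ, ∑ i, Int.fract (x i) = w := by
      refine ⟨-∑ i, ⌊x i⌋, ?_⟩
      have h1 : ∑ i, x i = 0 := by
        simp only [x]
        unfold dot
        rw [Finset.sum_comm]
        refine Finset.sum_eq_zero fun j _ => ?_
        rw [← Finset.sum_mul]
        have : ((∑ i, v i j : ℤ) : ℝ) = 0 := by rw [hvsum j]; simp
        push_cast at this
        rw [this, zero_mul]
      simp only [Int.fract]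
      rw [Finset.sum_sub_distrib, h1]
      push_cast
      ring
    obtain ⟨w, hw, hyw⟩ := hysum
    obtain ⟨w', hw'⟩ := hfsum
    have hww : w = w' := by
      rw [hyw, hw', abs_lt] at hsumclose
      have h1 : (-1 : ℤ) < w - w' := by exact_mod_cast hsumclose.1
      have h2 : w - w' < (1 : ℤ) := by exact_mod_cast hsumclose.2
      omega
    change ∑ i, Int.fract (x i) = k ∨ ∑ i, Int.fract (x i) = k + 1
    rw [hw', ← hww]
    rcases hw with h | h
    · left
      rw [h]
      simp
    · right
      rw [h]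
      simp
  have hst : Stable v := by
    intro θ hθ
    have h1 : ∑ i, saw (dot (v i) θ) = ∑ i, Int.fract (dot (v i) θ) - (2 * k + 1) / 2 := by
      rw [Finset.sum_congr rfl fun i _ => saw_of_ne (hθ i), Finset.sum_sub_distrib]
      simp [hr]
      ring
    rw [h1]
    rcases hst0 θ hθ with h | h
    · rw [h]
      rw [show (k : ℝ) - (2 * k + 1) / 2 = -(1 / 2) by ring, abs_neg]
      norm_num
    · rw [h]
      rw [show (k : ℝ) + 1 - (2 * k + 1) / 2 = 1 / 2 by ring]
      norm_num
  by_cases hnp : ∃ i j, ¬ Prop' (v i) (v j)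
  · -- several variables
    have hodd : Odd (Fintype.card (Fin r)) := by
      rw [Fintype.card_fin]
      exact ⟨k, hr⟩
    rcases structure_of_stable v hv0 hp hst hodd hnp with h | ⟨h, i₁, j₁, i₂, j₂, l, hx, h1, h2⟩
    · rw [Fintype.card_fin] at h
      exact hbad 0 (Or.inl h)
    · rw [Fintype.card_fin] at h
      have key : ∀ i j, v i = (-2 : ℤ) • v j →
          (Pi.single i 1 + Pi.single j 2 : Fin r → ℤ) ∈ L := by
        intro i j hij
        rw [← hcomb0]
        intro l
        have : ∑ x, (Pi.single i 1 + Pi.single j 2 : Fin r → ℤ) x * v x l =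
            v i l + 2 * v j l := by
          simp [Pi.single_apply, add_mul, Finset.sum_add_distrib]
        rw [this, hij]
        simp
      obtain ⟨n, hn1, hn2⟩ := (((hLmem _).1 (key _ _ h1)).and ((hLmem _).1 (key _ _ h2))).exists
      apply hbad n
      right
      left
      refine ⟨h, i₁, j₁, i₂, j₂, l, hx, ?_, ?_⟩
      · simp only [rel] at hn1
        rw [← hn1]
        simp [Pi.single_apply, add_mul, Finset.sum_add_distrib]
      · simp only [rel] at hn2
        rw [← hn2]
        simp [Pi.single_apply, add_mul, Finset.sum_add_distrib]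
  · -- one variable
    push Not at hnp
    have i0 : Fin r := ⟨0, by omega⟩
    have hκne : Nonempty κ := by
      obtain ⟨j, -⟩ := Function.ne_iff.1 (hv0 i0)
      exact ⟨j⟩
    obtain ⟨j0⟩ := hκne
    -- all vectors in the span are proportional to `v i0`
    have hprop : ∀ z : κ → ℤ, ∃ c d : ℤ, c ≠ 0 ∧ c • z = d • v i0 := by
      intro z
      obtain ⟨μ, hμ⟩ := hsurj z
      have h1 : ∀ i, ∃ c d : ℤ, c ≠ 0 ∧ c • v i = d • v i0 := fun i => hnp i i0
      choose c d hc hcd using h1
      refine ⟨∏ i, c i, ∑ i, μ i * ((∏ l ∈ Finset.univ.erase i, c l) * d i),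
        Finset.prod_ne_zero_iff.2 fun i _ => hc i, ?_⟩
      funext j
      simp only [Pi.smul_apply, smul_eq_mul]
      rw [← hμ j, Finset.mul_sum, Finset.sum_mul]
      refine Finset.sum_congr rfl fun i _ => ?_
      have h2 := congrFun (hcd i) j
      simp only [Pi.smul_apply, smul_eq_mul] at h2
      rw [← Finset.mul_prod_erase Finset.univ c (Finset.mem_univ i)]
      linear_combination (μ i * ∏ l ∈ Finset.univ.erase i, c l) * h2
    have huniq : ∀ j, j = j0 := by
      intro j
      by_contra hne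
      obtain ⟨c, d, hc, h1⟩ := hprop (Pi.single j 1)
      obtain ⟨c', d', hc', h2⟩ := hprop (Pi.single j0 1)
      have e1 := congrFun h1 j
      have e2 := congrFun h1 j0
      have e3 := congrFun h2 j
      have e4 := congrFun h2 j0
      simp only [Pi.smul_apply, smul_eq_mul, Pi.single_eq_same, mul_one] at e1 e4
      simp only [Pi.smul_apply, smul_eq_mul] at e2 e3
      rw [Pi.single_eq_of_ne (Ne.symm hne), mul_zero] at e2
      rw [Pi.single_eq_of_ne hne, mul_zero] at e3
      have hd : d ≠ 0 := by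
        rintro rfl
        rw [zero_mul] at e1
        exact hc e1
      have hv : v i0 j0 = 0 := by
        rcases mul_eq_zero.1 e2.symm with h | h
        · exact absurd h hd
        · exact h
      rw [hv, mul_zero] at e4
      exact hc' e4
    let q : Fin r → ℤ := fun i => v i j0
    have hq0 : ∀ i, q i ≠ 0 := by
      intro i h0
      apply hv0 i
      funext j
      rw [huniq j]
      exact h0
    have hmemq : ∀ μ : Fin r → ℤ, ∑ i, μ i * q i = 0 → μ ∈ L := by
      intro μ hμ
      rw [← hcomb0]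
      intro j
      rw [huniq j]
      exact hμ
    obtain ⟨β, hβ⟩ := hsurj fun _ => 1
    have hβ' := hβ j0
    have hstq : StableFam k q := by
      refine ⟨hq0, hvsum j0, fun lam hlam => ?_⟩
      have hdot : ∀ i, dot (v i) (fun _ => lam) = lam * q i := by
        intro i
        unfold dot
        rw [Finset.sum_eq_single j0 (fun j _ hj => absurd (huniq j) hj)
          (fun h => absurd (Finset.mem_univ _) h)]
        simp only [q]
        ring
      have := hst0 (fun _ => lam) (fun i n hn => hlam i n (by rw [← hdot]; exact hn))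
      simp only [hdot] at this
      exact this
    have hrels : ∀ᶠ n in (U : Filter ℕ), ∀ i j, (q i : ZMod (m n)) * a n j =
        (q j : ZMod (m n)) * a n i := by
      rw [Filter.eventually_all]
      intro i
      rw [Filter.eventually_all]
      intro j
      have h1 : (Pi.single j (q i) - Pi.single i (q j) : Fin r → ℤ) ∈ L := by
        apply hmemq
        simp [Pi.single_apply, sub_mul, Finset.sum_sub_distrib]
        ring
      filter_upwards [(hLmem _).1 h1] with n hn
      simp only [rel] at hn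
      have : ∑ x, (((Pi.single j (q i) - Pi.single i (q j) : Fin r → ℤ) x : ℤ) : ZMod (m n)) *
          a n x = (q i : ZMod (m n)) * a n j - (q j : ZMod (m n)) * a n i := by
        simp [Pi.single_apply, sub_mul, Finset.sum_sub_distrib]
      rw [this, sub_eq_zero] at hn
      exact hn
    obtain ⟨n, hn1, hn2⟩ := (hrels.and (hUge (∑ i, (q i).natAbs))).exists
    apply hbad n
    right
    right
    refine ⟨q, hstq, fun i => ?_, ∑ j, (β j : ZMod (m n)) * a n j, fun i => ?_⟩
    · have h1 : (q i).natAbs ≤ ∑ i, (q i).natAbs :=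
        Finset.single_le_sum (f := fun i => (q i).natAbs) (fun _ _ => Nat.zero_le _)
          (Finset.mem_univ i)
      rw [Int.abs_eq_natAbs]
      exact_mod_cast h1.trans hn2
    · rw [Finset.mul_sum]
      have h1 : ∀ j, (q i : ZMod (m n)) * ((β j : ZMod (m n)) * a n j) =
          ((β j * q j : ℤ) : ZMod (m n)) * a n i := by
        intro j
        push_cast
        linear_combination (β j : ZMod (m n)) * hn1 i j
      rw [Finset.sum_congr rfl fun j _ => h1 j, ← Finset.sum_mul]
      have h2 : ∑ j, ((β j * q j : ℤ) : ZMod (m n)) = 1 := by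
        rw [← Int.cast_sum]
        have : ∑ j, β j * q j = 1 := hβ'
        rw [this]
        simp
      rw [h2, one_mul]

end Pool.Agent.LevelOne
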