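import Pool.Agent.Lib.MP_386e47_h75.Class

/-!
# The walls of a stable sum
-/

set_option autoImplicit false

namespace Pool.Agent.LevelOne

open MeasureTheory

lemma measurable_saw : Measurable saw := by
  unfold saw
  exact Measurable.ite (measurableSet_eq_fun measurable_fract measurable_const) measurable_const
    (measurable_fract.sub_const _)

lemma intervalIntegrable_saw (f : ℝ → ℝ) (hf : Measurable f) (a b : ℝ) :
    IntervalIntegrable (fun x => saw (f x)) volume a b := by
  refine (intervalIntegrable_const (c := (1 : ℝ))).mono_fun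
    (measurable_saw.comp hf).aestronglyMeasurable (Filter.Eventually.of_forall fun x => ?_)
  simp only [Real.norm_eq_abs, abs_one]
  exact (abs_saw_lt _).trans (by norm_num)

lemma integral_saw : ∫ x in (0 : ℝ)..1, saw x = 0 := by
  have h1 : ∫ x in (0 : ℝ)..1, saw x = ∫ x in (0 : ℝ)..1, (x - 1 / 2) := by
    refine intervalIntegral.integral_congr_ae ?_
    have h2 : ∀ᵐ x : ℝ, x ≠ 1 := by
      rw [ae_iff]
      simp
    filter_upwards [h2] with x hx hmem
    rw [Set.uIoc_of_le zero_le_one] at hmem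
    exact saw_of_mem hmem.1 (lt_of_le_of_ne hmem.2 hx)
  rw [h1]
  rw [intervalIntegral.integral_sub (by simp) (by simp), integral_id,
    intervalIntegral.integral_const]
  norm_num

/-- The mean of the sawtooth function along a nonconstant integral direction vanishes. -/
lemma integral_saw_comp (α : ℤ) (hα : α ≠ 0) (β : ℝ) :
    ∫ s in (0 : ℝ)..1, saw ((α : ℝ) * s + β) = 0 := by
  have hα' : (α : ℝ) ≠ 0 := by exact_mod_cast hα
  rw [intervalIntegral.integral_comp_mul_add _ hα']
  have h1 : ∫ x in β..β + α • (1 : ℝ), saw x = α • ∫ x in β..β + 1, saw x :=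
    saw_periodic.intervalIntegral_add_zsmul_eq α β fun a b =>
      intervalIntegrable_saw (fun x => x) measurable_id a b
  have h2 : ∫ x in β..β + 1, saw x = ∫ x in (0 : ℝ)..0 + 1, saw x :=
    saw_periodic.intervalIntegral_add_eq β 0
  rw [zero_add, integral_saw] at h2
  rw [h2, smul_zero] at h1
  have e1 : (α : ℝ) * 0 + β = β := by ring
  have e2 : (α : ℝ) * 1 + β = β + α • (1 : ℝ) := by simp; ring
  rw [e1, e2, h1, smul_zero]

variable {ι κ : Type*} [Fintype κ]

lemma dot_add (w : κ → ℤ) (x y : κ → ℝ) : dot w (x + y) = dot w x + dot w y := by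
  unfold dot
  rw [← Finset.sum_add_distrib]
  exact Finset.sum_congr rfl fun j _ => by simp only [Pi.add_apply]; ring

lemma dot_smul (w : κ → ℤ) (c : ℝ) (x : κ → ℝ) : dot w (c • x) = c * dot w x := by
  unfold dot
  rw [Finset.mul_sum]
  exact Finset.sum_congr rfl fun j _ => by simp only [Pi.smul_apply, smul_eq_mul]; ring

lemma smul_dot (c : ℤ) (w : κ → ℤ) (x : κ → ℝ) : dot (c • w) x = c * dot w x := by
  unfold dot
  rw [Finset.mul_sum]
  exact Finset.sum_congr rfl fun j _ => by
    simp only [Pi.smul_apply, smul_eq_mul]; push_cast; ring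

lemma dot_int (w z : κ → ℤ) : dot w (fun j => (z j : ℝ)) = ((∑ j, w j * z j : ℤ) : ℝ) := by
  unfold dot
  push_cast
  rfl

/-- A direction orthogonal to `y` and to none of the `v i`, for `i ∉ C`. -/
lemma exists_direction [Fintype ι] (C : Finset ι) (v : ι → (κ → ℤ)) (y : κ → ℤ) (hy : y ≠ 0)
    (hv : ∀ i, i ∉ C → ∀ a b : ℤ, a ≠ 0 → a • v i ≠ b • y) :
    ∃ η : κ → ℤ, ∑ j, y j * η j = 0 ∧ ∀ i, i ∉ C → ∑ j, v i j * η j ≠ 0 := by
  classical
  let p : Submodule ℚ (κ → ℚ) := LinearMap.ker (Fintype.linearCombination ℚ (fun j => (y j : ℚ)))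
  let f : {i // i ∉ C} → Module.Dual ℚ (κ → ℚ) := fun i =>
    Fintype.linearCombination ℚ (fun j => (v i.1 j : ℚ))
  have hyy : 0 < ∑ j, y j * y j := by
    obtain ⟨j, hj⟩ := Function.ne_iff.1 hy
    refine Finset.sum_pos' (fun k _ => mul_self_nonneg _) ⟨j, Finset.mem_univ _, ?_⟩
    exact mul_self_pos.2 hj
  obtain ⟨x, hx, hx2⟩ := Module.Dual.exists_forall_mem_ne_zero_of_forall_exists p f (by
    rintro ⟨i, hi⟩
    let x : κ → ℤ := fun j => (∑ k, y k * y k) * v i j - (∑ k, y k * v i k) * y j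
    have hx1 : ∑ j, y j * x j = 0 := by
      have : ∑ j, y j * x j = (∑ k, y k * y k) * (∑ j, y j * v i j) -
          (∑ k, y k * v i k) * ∑ j, y j * y j := by
        rw [Finset.mul_sum, Finset.mul_sum, ← Finset.sum_sub_distrib]
        refine Finset.sum_congr rfl fun j _ => ?_
        simp only [x]
        ring
      rw [this]
      ring
    have hx0 : x ≠ 0 := by
      intro h0
      refine hv i hi (∑ k, y k * y k) (∑ k, y k * v i k) hyy.ne' ?_
      funext j
      have := congrFun h0 j
      simp only [x, Pi.zero_apply] at this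
      simp only [Pi.smul_apply, smul_eq_mul]
      linarith
    have hxx : 0 < ∑ j, x j * x j := by
      obtain ⟨j, hj⟩ := Function.ne_iff.1 hx0
      refine Finset.sum_pos' (fun k _ => mul_self_nonneg _) ⟨j, Finset.mem_univ _, ?_⟩
      exact mul_self_pos.2 hj
    have hvx : ∑ j, v i j * x j ≠ 0 := by
      intro h0
      have : ∑ j, x j * x j = (∑ k, y k * y k) * (∑ j, v i j * x j) -
          (∑ k, y k * v i k) * ∑ j, y j * x j := by
        rw [Finset.mul_sum, Finset.mul_sum, ← Finset.sum_sub_distrib]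
        refine Finset.sum_congr rfl fun j _ => ?_
        simp only [x]
        ring
      rw [this, h0, hx1] at hxx
      simp at hxx
    refine ⟨fun j => (x j : ℚ), ?_, ?_⟩
    · simp only [p, LinearMap.mem_ker, Fintype.linearCombination_apply, smul_eq_mul]
      have : ((∑ j, y j * x j : ℤ) : ℚ) = 0 := by rw [hx1]; simp
      push_cast at this
      rw [← this]
      exact Finset.sum_congr rfl fun j _ => by ring
    · simp only [f, Fintype.linearCombination_apply, smul_eq_mul]
      intro h0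
      apply hvx
      have : ((∑ j, v i j * x j : ℤ) : ℚ) = 0 := by
        push_cast
        rw [← h0]
        exact Finset.sum_congr rfl fun j _ => by ring
      exact_mod_cast this)
  -- clear denominators
  let D : ℕ := ∏ j, (x j).den
  have hD : 0 < D := Finset.prod_pos fun j _ => (x j).den_pos
  have hint : ∀ j, ∃ n : ℤ, (n : ℚ) = (D : ℚ) * x j := by
    intro j
    obtain ⟨c, hc⟩ : (x j).den ∣ D := Finset.dvd_prod_of_mem _ (Finset.mem_univ j)
    refine ⟨c * (x j).num, ?_⟩
    rw [hc]
    push_cast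
    have := Rat.mul_den_eq_num (x j)
    rw [← this]
    ring
  choose η hη using hint
  refine ⟨η, ?_, fun i hi => ?_⟩
  · have h1 : ((∑ j, y j * η j : ℤ) : ℚ) = 0 := by
      simp only [p, LinearMap.mem_ker, Fintype.linearCombination_apply, smul_eq_mul] at hx
      push_cast
      rw [Finset.sum_congr rfl fun j _ => by rw [hη j]]
      have : ∑ j, (y j : ℚ) * ((D : ℚ) * x j) = (D : ℚ) * ∑ j, x j * (y j : ℚ) := by
        rw [Finset.mul_sum]
        exact Finset.sum_congr rfl fun j _ => by ring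
      rw [this, hx, mul_zero]
    exact_mod_cast h1
  · intro h0
    apply hx2 ⟨i, hi⟩
    simp only [f, Fintype.linearCombination_apply, smul_eq_mul]
    have h1 : ((∑ j, v i j * η j : ℤ) : ℚ) = 0 := by rw [h0]; simp
    push_cast at h1
    rw [Finset.sum_congr rfl fun j _ => by rw [hη j]] at h1
    have : ∑ j, (v i j : ℚ) * ((D : ℚ) * x j) = (D : ℚ) * ∑ j, x j * (v i j : ℚ) := by
      rw [Finset.mul_sum]
      exact Finset.sum_congr rfl fun j _ => by ring
    rw [this] at h1
    rcases mul_eq_zero.1 h1 with h2 | h2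
    · exact absurd h2 (by exact_mod_cast hD.ne')
    · exact h2

/-- At a wall of a class the sum over the class vanishes. -/
theorem wall [Fintype ι] (v : ι → (κ → ℤ)) (hst : Stable v) (C : Finset ι) (q : ι → ℤ)
    (y : κ → ℤ) (hy : y ≠ 0) (N : ℤ) (hN : N ≠ 0) (hq : ∀ i ∈ C, q i ≠ 0)
    (hvq : ∀ i ∈ C, N • v i = q i • y)
    (hv : ∀ i, i ∉ C → ∀ a b : ℤ, a ≠ 0 → a • v i ≠ b • y) (ρ : ℝ)
    (hρ : jump C q ρ ≠ 0) : |jump C q ρ| = 1 ∧ gsum C q ρ = 0 := by
  classical
  obtain ⟨η, hη, hη2⟩ := exists_direction C v y hy hv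
  have hyy : 0 < ∑ j, y j * y j := by
    obtain ⟨j, hj⟩ := Function.ne_iff.1 hy
    refine Finset.sum_pos' (fun k _ => mul_self_nonneg _) ⟨j, Finset.mem_univ _, ?_⟩
    exact mul_self_pos.2 hj
  have hyyr : (0 : ℝ) < ((∑ j, y j * y j : ℤ) : ℝ) := by exact_mod_cast hyy
  have hNr : (N : ℝ) ≠ 0 := by exact_mod_cast hN
  let e : κ → ℝ := ((N : ℝ) * (((∑ j, y j * y j : ℤ) : ℝ))⁻¹) • fun j => (y j : ℝ)
  have hye : dot y e = N := by
    simp only [e]
    rw [dot_smul, dot_int, mul_assoc, inv_mul_cancel₀ hyyr.ne', mul_one]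
  let ηr : κ → ℝ := fun j => (η j : ℝ)
  have hyη : dot y ηr = 0 := by
    have := dot_int y η
    rw [hη] at this
    simpa using this
  let θ : ℝ → κ → ℝ := fun s => ρ • e + s • ηr
  have hθy : ∀ s, dot y (θ s) = N * ρ := by
    intro s
    change dot y (ρ • e + s • ηr) = _
    rw [dot_add, dot_smul y ρ e, dot_smul y s ηr, hye, hyη]
    ring
  let α : ι → ℤ := fun i => ∑ j, v i j * η j
  have hθv : ∀ i s, dot (v i) (θ s) = (α i : ℝ) * s + ρ * dot (v i) e := by
    intro i s
    change dot (v i) (ρ • e + s • ηr) = ((∑ j, v i j * η j : ℤ) : ℝ) * s + ρ * dot (v i) e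
    rw [dot_add, dot_smul _ ρ e, dot_smul _ s ηr, ← dot_int]
    ring
  -- the local statement
  have key : ∀ s : ℝ, (∀ i, i ∉ C → ∀ n : ℤ, dot (v i) (θ s) ≠ n) →
      |jump C q ρ| = 1 ∧ ∑ i ∈ Finset.univ \ C, saw (dot (v i) (θ s)) + gsum C q ρ = 0 := by
    intro s hs
    -- behaviour in the direction `e`
    have hrest : ∃ ε > 0, ∀ h : ℝ, h ≠ 0 → |h| < ε → (∀ i, i ∉ C → ∀ n : ℤ,
        dot (v i) (θ s + h • e) ≠ n) ∧
        ∑ i ∈ Finset.univ \ C, saw (dot (v i) (θ s + h • e)) =
          ∑ i ∈ Finset.univ \ C, saw (dot (v i) (θ s)) +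
            (∑ i ∈ Finset.univ \ C, dot (v i) e) * h := by
      have hone : ∀ i, i ∉ C → ∃ ε > 0, ∀ h : ℝ, |h| < ε → (∀ n : ℤ,
          dot (v i) (θ s + h • e) ≠ n) ∧
          saw (dot (v i) (θ s + h • e)) = saw (dot (v i) (θ s)) + dot (v i) e * h := by
        intro i hi
        obtain ⟨ε, hε, h1⟩ := saw_local (dot (v i) (θ s))
        have hfr : Int.fract (dot (v i) (θ s)) ≠ 0 := fun h0 => by
          obtain ⟨n, hn⟩ := fract_eq_zero_iff.1 h0
          exact hs i hi n hn
        by_cases hc : dot (v i) e = 0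
        · refine ⟨1, one_pos, fun h _ => ?_⟩
          rw [dot_add, dot_smul, hc, mul_zero, add_zero, zero_mul, add_zero]
          exact ⟨hs i hi, rfl⟩
        · refine ⟨ε / |dot (v i) e|, div_pos hε (abs_pos.2 hc), fun h hh => ?_⟩
          rw [dot_add, dot_smul]
          by_cases h0 : h = 0
          · subst h0
            rw [zero_mul, add_zero, mul_zero, add_zero]
            exact ⟨hs i hi, rfl⟩
          · have h2 : |h * dot (v i) e| < ε := by
              rw [abs_mul]
              exact (lt_div_iff₀ (abs_pos.2 hc)).1 hh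
            obtain ⟨h3, h4⟩ := h1 (h * dot (v i) e) (mul_ne_zero h0 hc) h2
            rw [if_neg hfr, sub_zero] at h4
            refine ⟨h3, ?_⟩
            rw [h4]
            ring
      choose! ε hε h1 using hone
      by_cases hne : (Finset.univ \ C).Nonempty
      · obtain ⟨i0, hi0, hmin⟩ := Finset.exists_min_image (Finset.univ \ C) ε hne
        rw [Finset.mem_sdiff] at hi0
        refine ⟨ε i0, hε i0 hi0.2, fun h h0 hh => ?_⟩
        have h2 : ∀ i, i ∉ C → |h| < ε i := fun i hi =>
          lt_of_lt_of_le hh (hmin i (by simp [hi]))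
        refine ⟨fun i hi => (h1 i hi h (h2 i hi)).1, ?_⟩
        rw [Finset.sum_mul, ← Finset.sum_add_distrib]
        refine Finset.sum_congr rfl fun i hi => ?_
        rw [Finset.mem_sdiff] at hi
        exact (h1 i hi.2 h (h2 i hi.2)).2
      · rw [Finset.not_nonempty_iff_eq_empty] at hne
        refine ⟨1, one_pos, fun h h0 hh => ⟨fun i hi => ?_, ?_⟩⟩
        · have : i ∈ Finset.univ \ C := by simp [hi]
          rw [hne] at this
          simp at this
        · rw [hne]
          simp
    obtain ⟨ε, hε, h1⟩ := hrest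
    obtain ⟨δ, hδ, h2⟩ := gsum_local C q hq ρ
    set A : ℝ := ∑ i ∈ Finset.univ \ C, saw (dot (v i) (θ s)) + gsum C q ρ with hA
    set B : ℝ := ∑ i ∈ Finset.univ \ C, dot (v i) e + ∑ i ∈ C, (q i : ℝ) with hB
    have hF : ∀ h : ℝ, h ≠ 0 → |h| < min ε δ →
        |A + B * h - ((SignType.sign h : SignType) : ℝ) * (jump C q ρ : ℝ) / 2| = 1 / 2 := by
      intro h h0 hh
      obtain ⟨h3, h4⟩ := h1 h h0 (lt_of_lt_of_le hh (min_le_left _ _))
      obtain ⟨h5, h6⟩ := h2 h h0 (lt_of_lt_of_le hh (min_le_right _ _))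
      have hC : ∀ i ∈ C, dot (v i) (θ s + h • e) = (q i : ℝ) * (ρ + h) := by
        intro i hi
        have h9 := smul_dot N (v i) (θ s + h • e)
        rw [hvq i hi, smul_dot, dot_add y, dot_smul, hye, hθy] at h9
        apply mul_left_cancel₀ hNr
        rw [← h9]
        ring
      have h7 := hst (θ s + h • e) (by
        intro i n
        by_cases hi : i ∈ C
        · rw [hC i hi]
          exact h5 i hi n
        · exact h3 i hi n)
      have h8 : ∑ i ∈ C, saw (dot (v i) (θ s + h • e)) = gsum C q (ρ + h) :=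
        Finset.sum_congr rfl fun i hi => by rw [hC i hi]
      rw [← Finset.sum_sdiff (Finset.subset_univ C), h4, h8, h6] at h7
      rw [← h7]
      congr 1
      rw [hA, hB]
      ring
    have hmin : (0 : ℝ) < min ε δ := lt_min hε hδ
    have hR : |A - (jump C q ρ : ℝ) / 2| = 1 / 2 := by
      have h3 : Filter.Tendsto (fun h : ℝ => |A + B * h - (jump C q ρ : ℝ) / 2|)
          (nhdsWithin 0 (Set.Ioi 0)) (nhds |A + B * 0 - (jump C q ρ : ℝ) / 2|) := by
        have : Continuous fun h : ℝ => |A + B * h - (jump C q ρ : ℝ) / 2| := by fun_prop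
        exact (this.tendsto 0).mono_left nhdsWithin_le_nhds
      have h4 : Filter.Tendsto (fun h : ℝ => |A + B * h - (jump C q ρ : ℝ) / 2|)
          (nhdsWithin 0 (Set.Ioi 0)) (nhds (1 / 2)) := by
        refine tendsto_const_nhds.congr' ?_
        filter_upwards [Ioo_mem_nhdsGT hmin] with h hh
        have := hF h hh.1.ne' (by rw [abs_of_pos hh.1]; exact hh.2)
        rw [sign_pos hh.1, SignType.coe_one, one_mul] at this
        exact this.symm
      have h5 := tendsto_nhds_unique h3 h4
      rwa [mul_zero, add_zero] at h5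
    have hL : |A + (jump C q ρ : ℝ) / 2| = 1 / 2 := by
      have h3 : Filter.Tendsto (fun h : ℝ => |A - B * h + (jump C q ρ : ℝ) / 2|)
          (nhdsWithin 0 (Set.Ioi 0)) (nhds |A - B * 0 + (jump C q ρ : ℝ) / 2|) := by
        have : Continuous fun h : ℝ => |A - B * h + (jump C q ρ : ℝ) / 2| := by fun_prop
        exact (this.tendsto 0).mono_left nhdsWithin_le_nhds
      have h4 : Filter.Tendsto (fun h : ℝ => |A - B * h + (jump C q ρ : ℝ) / 2|)
          (nhdsWithin 0 (Set.Ioi 0)) (nhds (1 / 2)) := by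
        refine tendsto_const_nhds.congr' ?_
        filter_upwards [Ioo_mem_nhdsGT hmin] with h hh
        have := hF (-h) (by linarith [hh.1] : -h < 0).ne
          (by rw [abs_neg, abs_of_pos hh.1]; exact hh.2)
        rw [sign_neg (by linarith [hh.1] : -h < 0), SignType.coe_neg_one] at this
        rw [← this]
        congr 1
        ring
      have h5 := tendsto_nhds_unique h3 h4
      rwa [mul_zero, sub_zero] at h5
    have hJr : (jump C q ρ : ℝ) ≠ 0 := by exact_mod_cast hρ
    have h3 : (A - (jump C q ρ : ℝ) / 2) ^ 2 = (A + (jump C q ρ : ℝ) / 2) ^ 2 := by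
      rw [← sq_abs (A - _), ← sq_abs (A + _), hR, hL]
    have hA0 : A = 0 := by
      have : A * (jump C q ρ : ℝ) = 0 := by nlinarith
      rcases mul_eq_zero.1 this with h | h
      · exact h
      · exact absurd h hJr
    refine ⟨?_, hA0⟩
    rw [hA0, zero_add, abs_div, abs_two] at hL
    have h4 : |(jump C q ρ : ℝ)| = 1 := by linarith
    exact_mod_cast h4
  -- almost every `s` is admissible
  have hae : ∀ᵐ s : ℝ, ∀ i, i ∉ C → ∀ n : ℤ, dot (v i) (θ s) ≠ n := by
    rw [ae_iff]
    have hsub : {s : ℝ | ¬∀ i, i ∉ C → ∀ n : ℤ, dot (v i) (θ s) ≠ n} ⊆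
        ⋃ (i : ι), ⋃ (n : ℤ), {s | i ∉ C ∧ dot (v i) (θ s) = n} := by
      intro s hs
      simp only [Set.mem_ofPred_eq, not_forall, ne_eq, not_not] at hs
      obtain ⟨i, hi, n, hn⟩ := hs
      simp only [Set.mem_iUnion, Set.mem_ofPred_eq]
      exact ⟨i, n, hi, hn⟩
    refine measure_mono_null hsub ?_
    rw [measure_iUnion_null_iff]
    intro i
    rw [measure_iUnion_null_iff]
    intro n
    by_cases hi : i ∈ C
    · simp [hi]
    · have hαi : (α i : ℝ) ≠ 0 := by exact_mod_cast hη2 i hi
      have : {s : ℝ | i ∉ C ∧ dot (v i) (θ s) = n} ⊆ {(n - ρ * dot (v i) e) / (α i : ℝ)} := by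
        rintro s ⟨-, hs⟩
        rw [hθv] at hs
        rw [Set.mem_singleton_iff, eq_div_iff hαi]
        linarith
      exact measure_mono_null this (measure_singleton _)
  obtain ⟨s0, hs0⟩ := hae.exists
  refine ⟨(key s0 hs0).1, ?_⟩
  have hint : ∫ s in (0 : ℝ)..1,
      (∑ i ∈ Finset.univ \ C, saw (dot (v i) (θ s)) + gsum C q ρ) = 0 := by
    have h1 : ∫ s in (0 : ℝ)..1,
        (∑ i ∈ Finset.univ \ C, saw (dot (v i) (θ s)) + gsum C q ρ) =
        ∫ s in (0 : ℝ)..1, (0 : ℝ) := by
      refine intervalIntegral.integral_congr_ae ?_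
      filter_upwards [hae] with s hs _
      exact (key s hs).2
    rw [h1]
    simp
  have hii : ∀ i ∈ Finset.univ \ C,
      IntervalIntegrable (fun s => saw (dot (v i) (θ s))) volume 0 1 := fun i _ => by
    simp only [hθv]
    exact intervalIntegrable_saw _ (by fun_prop) _ _
  have hsum : IntervalIntegrable (fun s => ∑ i ∈ Finset.univ \ C, saw (dot (v i) (θ s)))
      volume 0 1 := by
    have h1 := IntervalIntegrable.sum (Finset.univ \ C) hii
    have h2 : (∑ i ∈ Finset.univ \ C, fun s => saw (dot (v i) (θ s))) =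
        fun s => ∑ i ∈ Finset.univ \ C, saw (dot (v i) (θ s)) := by
      ext s
      simp
    rwa [h2] at h1
  rw [intervalIntegral.integral_add hsum (by simp),
    intervalIntegral.integral_finsetSum hii] at hint
  rw [Finset.sum_eq_zero (fun i hi => by
    rw [Finset.mem_sdiff] at hi
    simp only [hθv]
    exact integral_saw_comp (α i) (hη2 i hi.2) _)] at hint
  simpa using hint

end Pool.Agent.LevelOne
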